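import Pool.Agent.Q289.LV.Stm

/-! Project LV, job B2: the slopes. -/

set_option autoImplicit false

namespace Q2.LV.B2

open Q289.LV

theorem lip {φ φ₁ : ℝ → ℝ} {B : ℝ} (d1 : ∀ y, HasDerivAt φ (φ₁ y) y) (b1 : ∀ y, |φ₁ y| ≤ B)
    (u v : ℝ) : |φ u - φ v| ≤ B * |u - v| := by
  have := Convex.norm_image_sub_le_of_norm_hasDerivWithin_le (f := φ) (f' := φ₁) (C := B)
    (s := Set.univ) (fun z _ => (d1 z).hasDerivWithinAt) (fun z _ => b1 z)
    convex_univ (Set.mem_univ v) (Set.mem_univ u)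
  simpa using this

theorem tay {φ φ₁ φ₂ : ℝ → ℝ} {B : ℝ} (d1 : ∀ y, HasDerivAt φ (φ₁ y) y)
    (d2 : ∀ y, HasDerivAt φ₁ (φ₂ y) y) (b2 : ∀ y, |φ₂ y| ≤ B) (x h : ℝ) (hh : 0 ≤ h) :
    |φ (x + h) - φ x| ≤ (|φ₁ x| + B * h) * h := by
  rcases hh.eq_or_lt with h0 | h0
  · rw [← h0]; simp
  · obtain ⟨c, ⟨hc1, hc2⟩, hc⟩ := exists_hasDerivAt_eq_slope φ φ₁ (by linarith : x < x + h)
      (fun z _ => (d1 z).continuousAt.continuousWithinAt) (fun z _ => d1 z)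
    have e1 : φ (x + h) - φ x = φ₁ c * h := by
      rw [hc, add_sub_cancel_left, div_mul_cancel₀ _ h0.ne']
    rw [e1, abs_mul, abs_of_pos h0]
    refine mul_le_mul_of_nonneg_right ?_ h0.le
    have h1 := lip d2 b2 c x
    have hB : 0 ≤ B := (abs_nonneg _).trans (b2 0)
    have h2 : |φ₁ c| ≤ |φ₁ x| + |φ₁ c - φ₁ x| := by
      have := abs_add_le (φ₁ x) (φ₁ c - φ₁ x)
      simpa using this
    have h3 : |c - x| ≤ h := by rw [abs_of_pos (by linarith)]; linarith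
    have h4 : B * |c - x| ≤ B * h := mul_le_mul_of_nonneg_left h3 hB
    linarith

theorem tel {q : ℕ} {β x : ℝ} {V : ℤ → ℝ} {φ : ℝ → ℝ}
    (blk : ∀ i : ℤ, V ((i + 1) * q) - V (i * q) = φ (x + i * β)) (i : ℤ) (n : ℕ) :
    ∑ j ∈ Finset.range n, φ (x + ((i : ℝ) + j) * β) = V ((i + n) * q) - V (i * q) := by
  induction n with
  | zero => simp
  | succ n ih =>
    rw [Finset.sum_range_succ, ih]
    have h := blk (i + n)
    push_cast at h ⊢
    rw [← h, add_assoc i (n : ℤ) 1]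
    ring

/-- the facts about the sizes -/
structure Yf (y q β K z η : ℝ) : Prop where
  y100 : 100 ≤ y
  yK : 100 * K ≤ y
  K1 : 1 ≤ K
  q1 : 1 ≤ q
  q4 : q ≤ y ^ 4
  b0 : 0 < β
  b98 : β * y ^ 98 ≤ 1
  z0 : 0 < z
  zy : z * y ^ 10 = 1
  he : η = (1 / 4) * q * z

namespace Yf

variable {y q β K z η : ℝ} (h : Yf y q β K z η)

include h

theorem y1 : 1 ≤ y := by linarith [h.y100]
theorem y0 : 0 < y := by linarith [h.y100]
theorem K0 : 0 < K := by linarith [h.K1]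
theorem q0 : 0 < q := by linarith [h.q1]
theorem e0 : 0 < η := by
  rw [h.he]
  exact mul_pos (mul_pos (by norm_num) h.q0) h.z0
theorem pw (a b : ℕ) (hab : a ≤ b) : y ^ a ≤ y ^ b := pow_le_pow_right₀ h.y1 hab
theorem pw1 (a : ℕ) : (1 : ℝ) ≤ y ^ a := one_le_pow₀ h.y1
theorem pw0 (a : ℕ) : (0 : ℝ) < y ^ a := pow_pos h.y0 a
theorem pwc (a b : ℕ) (hab : a + 1 ≤ b) : 100 * y ^ a ≤ y ^ b := by
  refine le_trans ?_ (h.pw (a + 1) b hab)
  rw [pow_succ, mul_comm]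
  exact mul_le_mul_of_nonneg_left h.y100 (h.pw0 a).le

theorem cnN {n N m : ℝ} (h1 : n * q ≤ y ^ 90 + q) (h2 : (1 / 2) * y ^ 99 ≤ m)
    (h3 : m < (N + 1) * q) : n + 2 ≤ N := by
  have e1 : q ≤ y ^ 90 := h.q4.trans (h.pw 4 90 (by norm_num))
  have e2 := h.pwc 90 99 (by norm_num)
  have e3 : (n + 2) * q ≤ N * q := by
    have e4 : (n + 2) * q = n * q + 2 * q := by ring
    have e5 : (N + 1) * q = N * q + q := by ring
    have e6 := h.pw1 90
    rw [e5] at h3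
    rw [e4]
    linarith
  exact le_of_mul_le_mul_right e3 h.q0

theorem cavg {s Tr L : ℝ} (h1 : y ^ 90 ≤ s) (h2 : y ^ 100 = Tr) (h3 : L ≤ 100 * y) :
    (1 / 2) * (s * z) ≤ s ^ 2 / Tr - 3 * L := by
  have s0 : 0 ≤ s := (h.pw0 90).le.trans h1
  have T0 : 0 < Tr := by rw [← h2]; exact h.pw0 100
  have h5 : s * z ≤ s ^ 2 / Tr := by
    rw [le_div_iff₀ T0, ← h2]
    have h6 : y ^ 100 = y ^ 90 * y ^ 10 := by rw [← pow_add]
    calc s * z * y ^ 100 = s * y ^ 90 * (z * y ^ 10) := by rw [h6]; ring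
      _ = s * y ^ 90 := by rw [h.zy, mul_one]
      _ ≤ s * s := mul_le_mul_of_nonneg_left h1 s0
      _ = s ^ 2 := by ring
  have h7 : y ^ 80 ≤ s * z := by
    calc y ^ 80 = y ^ 90 * z := by
          have : y ^ 90 = y ^ 80 * y ^ 10 := by rw [← pow_add]
          rw [this, mul_assoc, mul_comm (y ^ 10) z, h.zy, mul_one]
      _ ≤ s * z := mul_le_mul_of_nonneg_right h1 h.z0.le
  have h9 := h.pwc 1 2 (by norm_num)
  have h10 := h.pwc 2 80 (by norm_num)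
  rw [pow_one] at h9
  have h11 := h.y0
  linarith

theorem cB {n : ℝ} (n0 : 0 ≤ n) (h1 : n * q ≤ y ^ 90 + q) :
    K * q * β ^ 2 * (n + 1) ^ 2 ≤ 2 * η := by
  have b0 := h.b0
  have q0 := h.q0
  have K0 := h.K0
  have y0 := h.y0
  have e1 : q ≤ y ^ 90 := h.q4.trans (h.pw 4 90 (by norm_num))
  have h1' : (n + 1) * q ≤ 3 * y ^ 90 := by
    have : (n + 1) * q = n * q + q := by ring
    rw [this]; linarith
  have h2 : β * ((n + 1) * q) * y ^ 8 ≤ 3 := by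
    calc β * ((n + 1) * q) * y ^ 8 ≤ β * (3 * y ^ 90) * y ^ 8 := by
          refine mul_le_mul_of_nonneg_right (mul_le_mul_of_nonneg_left h1' b0.le) (h.pw0 8).le
      _ = 3 * (β * y ^ 98) := by
          have : y ^ 98 = y ^ 90 * y ^ 8 := by rw [← pow_add]
          rw [this]; ring
      _ ≤ 3 := by linarith [h.b98]
  have h3 : (β * ((n + 1) * q)) ^ 2 * y ^ 16 ≤ 9 := by
    have h4 : (β * ((n + 1) * q) * y ^ 8) ^ 2 ≤ 3 ^ 2 :=
      pow_le_pow_left₀ (by positivity) h2 2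
    have h5 : (β * ((n + 1) * q)) ^ 2 * y ^ 16 = (β * ((n + 1) * q) * y ^ 8) ^ 2 := by
      rw [mul_pow _ (y ^ 8) 2, ← pow_mul]
    rw [h5]
    linarith
  have h5 : K * q * β ^ 2 * (n + 1) ^ 2 * (q * y ^ 16) ≤ 9 * K := by
    calc _ = K * ((β * ((n + 1) * q)) ^ 2 * y ^ 16) := by ring
      _ ≤ K * 9 := mul_le_mul_of_nonneg_left h3 K0.le
      _ = 9 * K := by ring
  have h6 : 9 * K ≤ 2 * η * (q * y ^ 16) := by
    have h7 : 2 * η * (q * y ^ 16) = (1 / 2) * q ^ 2 * y ^ 6 := by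
      have : y ^ 16 = y ^ 10 * y ^ 6 := by rw [← pow_add]
      rw [h.he, this]
      calc _ = (1 / 2) * q ^ 2 * y ^ 6 * (z * y ^ 10) := by ring
        _ = _ := by rw [h.zy, mul_one]
    rw [h7]
    have h8 := h.pw 1 6 (by norm_num)
    rw [pow_one] at h8
    have h9 : (1 : ℝ) ≤ q ^ 2 := one_le_pow₀ h.q1
    have h10 : 1 * y ^ 6 ≤ q ^ 2 * y ^ 6 := mul_le_mul_of_nonneg_right h9 (h.pw0 6).le
    have h11 := h.yK
    have h12 : 1 / 2 * q ^ 2 * y ^ 6 = 1 / 2 * (q ^ 2 * y ^ 6) := by ring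
    rw [h12]
    linarith
  exact le_of_mul_le_mul_right (h5.trans h6) (mul_pos q0 (h.pw0 16))

theorem ca {j : ℝ} (h1 : j ≤ 2 * y ^ 20) : K * q * (j * β) ≤ η / 2 := by
  have b0 := h.b0
  have q0 := h.q0
  have K0 := h.K0
  have h5 : j * β ≤ 2 * y ^ 20 * β := mul_le_mul_of_nonneg_right h1 b0.le
  have h6 : K * (2 * y ^ 20 * β) ≤ (1 / 8) * z := by
    have h7 : K * (2 * y ^ 20 * β) * y ^ 78 ≤ 2 * K := by
      have : y ^ 98 = y ^ 20 * y ^ 78 := by rw [← pow_add]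
      calc K * (2 * y ^ 20 * β) * y ^ 78 = 2 * K * (β * y ^ 98) := by rw [this]; ring
        _ ≤ 2 * K * 1 := mul_le_mul_of_nonneg_left h.b98 (by linarith)
        _ = 2 * K := by ring
    have h8 : 2 * K ≤ (1 / 8) * z * y ^ 78 := by
      have : y ^ 78 = y ^ 10 * y ^ 68 := by rw [← pow_add]
      have h9 : (1 / 8) * z * y ^ 78 = (1 / 8) * y ^ 68 := by
        rw [this]
        calc _ = (1 / 8) * y ^ 68 * (z * y ^ 10) := by ring
          _ = _ := by rw [h.zy, mul_one]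
      rw [h9]
      have h10 := h.pw 1 68 (by norm_num)
      rw [pow_one] at h10
      linarith [h.yK]
    exact le_of_mul_le_mul_right (h7.trans h8) (h.pw0 78)
  calc K * q * (j * β) ≤ K * q * (2 * y ^ 20 * β) :=
        mul_le_mul_of_nonneg_left h5 (mul_pos K0 q0).le
    _ = q * (K * (2 * y ^ 20 * β)) := by ring
    _ ≤ q * ((1 / 8) * z) := mul_le_mul_of_nonneg_left h6 q0.le
    _ = η / 2 := by rw [h.he]; ring

theorem cJ {J : ℝ} (h1 : y ^ 20 ≤ J) (h2 : J * (η / 2) ≤ 200 * y) : False := by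
  have z0 := h.z0
  have J0 : 0 ≤ J := (h.pw0 20).le.trans h1
  have h5 : (1 / 8) * y ^ 10 ≤ J * (η / 2) := by
    calc (1 / 8) * y ^ 10 = (1 / 8) * y ^ 20 * z := by
          have : y ^ 20 = y ^ 10 * y ^ 10 := by rw [← pow_add]
          rw [this]
          calc _ = (1 / 8) * y ^ 10 * 1 := by ring
            _ = (1 / 8) * y ^ 10 * (z * y ^ 10) := by rw [h.zy]
            _ = _ := by ring
      _ ≤ (1 / 8) * (J * q) * z := by
          refine mul_le_mul_of_nonneg_right ?_ z0.le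
          have h3 : J * 1 ≤ J * q := mul_le_mul_of_nonneg_left h.q1 J0
          linarith
      _ = _ := by rw [h.he]; ring
  have h6 := h.pwc 1 2 (by norm_num)
  have h7 := h.pwc 2 10 (by norm_num)
  rw [pow_one] at h6
  have := h.y0
  linarith

theorem cJm {J m : ℝ} (h1 : J ≤ 2 * y ^ 20) (h2 : (1 / 2) * y ^ 99 ≤ m) : J * q ≤ m := by
  calc J * q ≤ 2 * y ^ 20 * y ^ 4 := by
        refine mul_le_mul h1 h.q4 h.q0.le ?_
        exact mul_nonneg (by norm_num) (h.pw0 20).le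
    _ = 2 * y ^ 24 := by rw [mul_assoc, ← pow_add]
    _ ≤ (1 / 2) * y ^ 99 := by
        have h5 := h.pwc 24 99 (by norm_num)
        have := h.pw0 24
        linarith
    _ ≤ m := h2

theorem cb {j n : ℝ} (j0 : 0 ≤ j) (hj : j ≤ n) (h1 : n * q ≤ y ^ 90 + q) :
    (q * (y ^ 3)⁻¹ + K * q * (j * β)) * (j * β) ≤ η := by
  have b0 := h.b0
  have q0 := h.q0
  have K0 := h.K0
  have e1 : q ≤ y ^ 90 := h.q4.trans (h.pw 4 90 (by norm_num))
  have h4 : n ≤ 2 * y ^ 90 := by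
    calc n = n * 1 := (mul_one _).symm
      _ ≤ n * q := mul_le_mul_of_nonneg_left h.q1 (j0.trans hj)
      _ ≤ _ := by linarith
  set t : ℝ := j * β with ht
  have t0 : 0 ≤ t := mul_nonneg j0 b0.le
  have h5 : t * y ^ 8 ≤ 2 := by
    calc t * y ^ 8 ≤ (2 * y ^ 90) * β * y ^ 8 := by
          refine mul_le_mul_of_nonneg_right (mul_le_mul_of_nonneg_right
            (hj.trans h4) b0.le) (h.pw0 8).le
      _ = 2 * (β * y ^ 98) := by
          have : y ^ 98 = y ^ 90 * y ^ 8 := by rw [← pow_add]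
          rw [this]; ring
      _ ≤ 2 := by linarith [h.b98]
  -- multiply by y ^ 16
  have y3 : (y ^ 3)⁻¹ * y ^ 3 = 1 := inv_mul_cancel₀ (h.pw0 3).ne'
  refine le_of_mul_le_mul_right ?_ (h.pw0 16)
  have e16 : y ^ 16 = y ^ 8 * y ^ 8 := by rw [← pow_add]
  have e8 : y ^ 8 = y ^ 3 * y ^ 5 := by rw [← pow_add]
  have e16' : y ^ 16 = y ^ 10 * y ^ 6 := by rw [← pow_add]
  have r : η * y ^ 16 = (1 / 4) * q * y ^ 6 := by
    rw [h.he, e16']
    calc _ = (1 / 4) * q * y ^ 6 * (z * y ^ 10) := by ring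
      _ = _ := by rw [h.zy, mul_one]
  have l : (q * (y ^ 3)⁻¹ + K * q * t) * t * y ^ 16 =
      q * (y ^ 5 * (t * y ^ 8) + K * ((t * y ^ 8) * (t * y ^ 8))) := by
    calc (q * (y ^ 3)⁻¹ + K * q * t) * t * y ^ 16
        = q * ((y ^ 3)⁻¹ * y ^ 8) * (t * y ^ 8) + q * (K * ((t * y ^ 8) * (t * y ^ 8))) := by
          rw [e16]; ring
      _ = q * y ^ 5 * (t * y ^ 8) + q * (K * ((t * y ^ 8) * (t * y ^ 8))) := by
          have : (y ^ 3)⁻¹ * y ^ 8 = y ^ 5 := by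
            rw [e8, ← mul_assoc, y3, one_mul]
          rw [this]
      _ = _ := by ring
  rw [l, r]
  have w0 : 0 ≤ t * y ^ 8 := mul_nonneg t0 (h.pw0 8).le
  have f1 : y ^ 5 * (t * y ^ 8) ≤ y ^ 5 * 2 := mul_le_mul_of_nonneg_left h5 (h.pw0 5).le
  have f2 : (t * y ^ 8) * (t * y ^ 8) ≤ 2 * 2 := mul_le_mul h5 h5 w0 (by norm_num)
  have f3 : K * ((t * y ^ 8) * (t * y ^ 8)) ≤ K * (2 * 2) := mul_le_mul_of_nonneg_left f2 K0.le
  have f4 : y ^ 5 * (t * y ^ 8) + K * ((t * y ^ 8) * (t * y ^ 8)) ≤ (1 / 4) * y ^ 6 := by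
    have g1 := h.pwc 5 6 (by norm_num)
    have g2 := h.pw 1 5 (by norm_num)
    rw [pow_one] at g2
    have g3 := h.yK
    linarith
  calc q * (y ^ 5 * (t * y ^ 8) + K * ((t * y ^ 8) * (t * y ^ 8))) ≤ q * ((1 / 4) * y ^ 6) :=
        mul_le_mul_of_nonneg_left f4 q0.le
    _ = _ := by ring

theorem cneg {t : ℝ} (h1 : t * q ≤ y ^ 60) : K * q * (t * β) ≤ η / 2 := by
  have b0 := h.b0
  have K0 := h.K0
  have z0 := h.z0
  have h4 : K * (t * q * β) ≤ K * (y ^ 60 * β) :=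
    mul_le_mul_of_nonneg_left (mul_le_mul_of_nonneg_right h1 b0.le) K0.le
  have h5 : K * (y ^ 60 * β) ≤ (1 / 8) * z := by
    have h7 : K * (y ^ 60 * β) * y ^ 38 ≤ K := by
      have : y ^ 98 = y ^ 60 * y ^ 38 := by rw [← pow_add]
      calc K * (y ^ 60 * β) * y ^ 38 = K * (β * y ^ 98) := by rw [this]; ring
        _ ≤ K * 1 := mul_le_mul_of_nonneg_left h.b98 K0.le
        _ = K := by ring
    have h8 : K ≤ (1 / 8) * z * y ^ 38 := by
      have : y ^ 38 = y ^ 10 * y ^ 28 := by rw [← pow_add]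
      have h9 : (1 / 8) * z * y ^ 38 = (1 / 8) * y ^ 28 := by
        rw [this]
        calc _ = (1 / 8) * y ^ 28 * (z * y ^ 10) := by ring
          _ = _ := by rw [h.zy, mul_one]
      rw [h9]
      have h10 := h.pw 1 28 (by norm_num)
      rw [pow_one] at h10
      linarith [h.yK]
    exact le_of_mul_le_mul_right (h7.trans h8) (h.pw0 38)
  have h6 : (1 / 8) * z ≤ η / 2 := by
    rw [h.he]
    have : 1 * z ≤ q * z := mul_le_mul_of_nonneg_right h.q1 z0.le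
    have h7 : 1 / 4 * q * z / 2 = 1 / 8 * (q * z) := by ring
    rw [h7]; linarith
  calc K * q * (t * β) = K * (t * q * β) := by ring
    _ ≤ _ := h4.trans (h5.trans h6)

theorem cend {i n N m : ℝ} (h1 : n * q ≤ y ^ 90 + q) (h2 : i * q ≤ m - 2 * y ^ 96)
    (h3 : m < (N + 1) * q) : i ≤ N - n - 1 := by
  have e1 : q ≤ y ^ 90 := h.q4.trans (h.pw 4 90 (by norm_num))
  have e2 := h.pwc 90 96 (by norm_num)
  have e3 : i * q ≤ (N - n - 1) * q := by
    have e4 : (N - n - 1) * q = N * q - n * q - q := by ring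
    have e5 : (N + 1) * q = N * q + q := by ring
    have e6 := h.pw1 90
    rw [e5] at h3
    rw [e4]
    linarith
  exact le_of_mul_le_mul_right e3 h.q0

end Yf

/-- the starting slope -/
theorem start {κ K : ℝ} {T q : ℕ} {β x : ℝ} {w V : ℤ → ℝ} {φ φ₁ φ₂ : ℝ → ℝ}
    (hS : SetB κ K T q β x w V φ φ₁ φ₂) {y z η : ℝ} (h : Yf y q β K z η) {m₂ : ℤ}
    (hm₂ : (1 / 2) * y ^ 99 ≤ (m₂ : ℝ)) (hlog : Real.log (T : ℝ) ≤ 100 * y)
    (H2 : ∀ a b : ℤ, 0 ≤ a → a < b → b ≤ m₂ → V b - V a ≤ 2 * Real.log T)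
    (hNB : ¬ (|φ x| < η ∧ q * (y ^ 3)⁻¹ < |φ₁ x|)) {n : ℕ} (hn0 : 1 ≤ n)
    (hnq2 : (n : ℝ) * q ≤ y ^ 90 + q)
    (havg : 2 * η * n ≤ ∑ j ∈ Finset.range n, -φ (x + ((0 : ℝ) + (j : ℝ)) * β)) :
    η ≤ -φ x := by
  have b0 := h.b0
  have q0 := h.q0
  have y0 := h.y0
  have hqz : (0 : ℤ) < q := by exact_mod_cast hS.q1
  by_contra hcon
  push Not at hcon
  rcases le_or_gt η (φ x) with ha | hb
  · -- (a)
    obtain ⟨J, hJ⟩ : ∃ J : ℕ, J = ⌈y ^ 20⌉₊ := ⟨_, rfl⟩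
    have hJ1 : y ^ 20 ≤ J := by rw [hJ]; exact Nat.le_ceil _
    have hJ2 : (J : ℝ) ≤ 2 * y ^ 20 := by
      rw [hJ]
      have := Nat.ceil_lt_add_one (a := y ^ 20) (h.pw0 20).le
      linarith [h.pw1 20]
    have hJ0 : 0 < J := by rw [hJ]; exact Nat.ceil_pos.2 (h.pw0 20)
    have h1 : ∀ j ∈ Finset.range J, η / 2 ≤ φ (x + (((0 : ℤ) : ℝ) + (j : ℝ)) * β) := by
      intro j hj
      have hjJ : (j : ℝ) ≤ J := by exact_mod_cast (Finset.mem_range.1 hj).le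
      have h2 := lip hS.d1 hS.b1 (x + (((0 : ℤ) : ℝ) + (j : ℝ)) * β) x
      have h3 : x + (((0 : ℤ) : ℝ) + (j : ℝ)) * β - x = j * β := by push_cast; ring
      have hjb : (0 : ℝ) ≤ j * β := mul_nonneg (Nat.cast_nonneg j) b0.le
      rw [h3, abs_of_nonneg hjb] at h2
      have h4 : K * q * (j * β) ≤ η / 2 := h.ca (hjJ.trans hJ2)
      have h5 := (abs_le.1 h2).1
      generalize φ (x + (((0 : ℤ) : ℝ) + (j : ℝ)) * β) = p at h5 ⊢
      linarith
    have h2 := Finset.sum_le_sum h1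
    rw [Finset.sum_const, Finset.card_range, nsmul_eq_mul, tel hS.blk 0 J] at h2
    have h3 := H2 (0 * q) ((0 + J) * q) (by simp) (by
      have : (0 : ℤ) < J := by exact_mod_cast hJ0
      have := mul_pos this hqz
      simpa using this) (by
      have h4 : ((J : ℝ)) * q ≤ m₂ := h.cJm hJ2 hm₂
      have h5 : ((((0 : ℤ) + J) * q : ℤ) : ℝ) ≤ (m₂ : ℝ) := by push_cast; linarith
      exact_mod_cast h5)
    exact h.cJ hJ1 (by linarith)
  · -- (b)
    have habs : |φ x| < η := abs_lt.2 ⟨by linarith, hb⟩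
    have hφ1 : |φ₁ x| ≤ q * (y ^ 3)⁻¹ := by
      by_contra h'
      push Not at h'
      exact hNB ⟨habs, h'⟩
    have h1 : ∀ j ∈ Finset.range n, -φ (x + ((0 : ℝ) + (j : ℝ)) * β) < 2 * η := by
      intro j hj
      have hjn : (j : ℝ) ≤ n := by exact_mod_cast (Finset.mem_range.1 hj).le
      have hj0 : (0 : ℝ) ≤ j := Nat.cast_nonneg j
      have hjb : (0 : ℝ) ≤ j * β := mul_nonneg hj0 b0.le
      have h2 := tay hS.d1 hS.d2 hS.b2 x (j * β) hjb
      have h4 : (|φ₁ x| + K * q * (j * β)) * (j * β) ≤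
          (q * (y ^ 3)⁻¹ + K * q * (j * β)) * (j * β) := by
        refine mul_le_mul_of_nonneg_right ?_ hjb
        linarith
      have h5 := h.cb hj0 hjn hnq2
      have h6 := (abs_le.1 (h2.trans (h4.trans h5))).1
      rw [zero_add]
      linarith
    have h3 := Finset.sum_lt_sum_of_nonempty (by simpa using (by omega : n ≠ 0)) h1
    rw [Finset.sum_const, Finset.card_range, nsmul_eq_mul] at h3
    linarith

/-- the sizes of the problem -/
theorem sizes {κ K : ℝ} {T q : ℕ} {β x : ℝ} {w V : ℤ → ℝ} {φ φ₁ φ₂ : ℝ → ℝ}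
    (hS : SetB κ K T q β x w V φ φ₁ φ₂) (hT : (max 100 (100 * K)) ^ 100 ≤ (T : ℝ)) :
    ∃ y z : ℝ, Yf y q β K z ((1 / 4) * q * z) ∧ y ^ 100 = (T : ℝ) ∧
      (T : ℝ) ^ (0.99 : ℝ) = y ^ 99 ∧ (T : ℝ) ^ (0.96 : ℝ) = y ^ 96 ∧
      (T : ℝ) ^ (0.6 : ℝ) = y ^ 60 ∧ (T : ℝ) ^ (-0.1 : ℝ) = z ∧
      (T : ℝ) ^ (-0.03 : ℝ) = (y ^ 3)⁻¹ ∧ Real.log (T : ℝ) ≤ 100 * y := by
  have hK := hS.K1
  have hβT := hS.βT
  have hqT := hS.qT
  generalize hTr : (T : ℝ) = Tr at *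
  obtain ⟨Y, hY⟩ : ∃ Y : ℝ, Y = max 100 (100 * K) := ⟨_, rfl⟩
  rw [← hY] at hT
  have hY100 : 100 ≤ Y := by rw [hY]; exact le_max_left _ _
  have hYK : 100 * K ≤ Y := by rw [hY]; exact le_max_right _ _
  have hTr0 : 0 < Tr := lt_of_lt_of_le (pow_pos (by linarith) 100) hT
  obtain ⟨y, hy⟩ : ∃ y : ℝ, y = Tr ^ (0.01 : ℝ) := ⟨_, rfl⟩
  have hy0 : 0 < y := by rw [hy]; exact Real.rpow_pos_of_pos hTr0 _
  have ep : ∀ k : ℕ, y ^ k = Tr ^ (0.01 * (k : ℝ)) := by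
    intro k
    rw [hy, ← Real.rpow_natCast, ← Real.rpow_mul hTr0.le]
  have e100 : y ^ 100 = Tr := by rw [ep]; norm_num
  have e99 : Tr ^ (0.99 : ℝ) = y ^ 99 := by rw [ep]; norm_num
  have e98 : Tr ^ (0.98 : ℝ) = y ^ 98 := by rw [ep]; norm_num
  have e96 : Tr ^ (0.96 : ℝ) = y ^ 96 := by rw [ep]; norm_num
  have e60 : Tr ^ (0.6 : ℝ) = y ^ 60 := by rw [ep]; norm_num
  have e10 : Tr ^ (-0.1 : ℝ) = (y ^ 10)⁻¹ := by
    rw [ep, ← Real.rpow_neg hTr0.le]; norm_num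
  have e3 : Tr ^ (-0.03 : ℝ) = (y ^ 3)⁻¹ := by
    rw [ep, ← Real.rpow_neg hTr0.le]; norm_num
  have hyY : Y ≤ y := by
    have h1 : Y ^ 100 ≤ y ^ 100 := by rw [e100]; exact hT
    exact le_of_pow_le_pow_left₀ (by norm_num) hy0.le h1
  have hy100 : 100 ≤ y := hY100.trans hyY
  have hyK : 100 * K ≤ y := hYK.trans hyY
  have hy1 : 1 ≤ y := by linarith
  refine ⟨y, (y ^ 10)⁻¹, ⟨hy100, hyK, hK, ?_, ?_, hS.β0, ?_, inv_pos.2 (pow_pos hy0 10),
    inv_mul_cancel₀ (pow_pos hy0 10).ne', rfl⟩, e100, e99, e96, e60, e10, e3, ?_⟩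
  · exact_mod_cast hS.q1
  · have h1 : (q : ℝ) ^ 30 ≤ (y ^ 4) ^ 30 := by
      calc (q : ℝ) ^ 30 ≤ y ^ 100 := by rw [e100]; exact hqT
        _ ≤ y ^ 120 := pow_le_pow_right₀ hy1 (by norm_num)
        _ = (y ^ 4) ^ 30 := by rw [← pow_mul]
    exact le_of_pow_le_pow_left₀ (by norm_num) (pow_pos hy0 4).le h1
  · rw [← e98]; exact hβT
  · rw [← e100, Real.log_pow]
    have := Real.log_le_sub_one_of_pos hy0
    push_cast
    linarith

theorem b2 (hcalc : S_Calc) : S_B2 := by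
  intro κ K hκ
  refine ⟨⌈(max 100 (100 * K)) ^ 100⌉₊, ?_⟩
  intro T q β x w V φ φ₁ φ₂ hT hS hNB m₂ hm₂ H1 H2
  have hYT : (max 100 (100 * K)) ^ 100 ≤ (T : ℝ) := (Nat.le_ceil _).trans (by exact_mod_cast hT)
  obtain ⟨y, z, h, e100, e99, e96, e60, e10, e3, hlog⟩ := sizes hS hYT
  obtain ⟨η, hη⟩ : ∃ η : ℝ, η = (1 / 4) * q * z := ⟨_, rfl⟩
  rw [← hη] at h
  have hqz : (0 : ℤ) < q := by exact_mod_cast hS.q1
  have q0 := h.q0
  have z0 := h.z0
  have b0 := h.b0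
  simp only [NotBad] at hNB
  rw [e10, e3, ← hη] at hNB
  rw [e60, e96, e10]
  rw [e99] at hm₂
  have hm0 : (0 : ℝ) < m₂ := lt_of_lt_of_le (mul_pos (by norm_num) (h.pw0 99)) hm₂
  have hm0' : (0 : ℤ) < m₂ := by exact_mod_cast hm0
  -- N
  obtain ⟨N, hN⟩ : ∃ N : ℕ, (N : ℤ) = m₂ / q :=
    ⟨(m₂ / q).toNat, Int.toNat_of_nonneg (Int.ediv_nonneg hm0'.le hqz.le)⟩
  have hN1 : (N : ℤ) * q ≤ m₂ := by rw [hN]; exact Int.ediv_mul_le _ hqz.ne'
  have hN2 : m₂ < ((N : ℤ) + 1) * q := by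
    rw [hN]
    exact Int.lt_ediv_add_one_mul_self m₂ hqz
  have hN2r : (m₂ : ℝ) < ((N : ℝ) + 1) * q := by exact_mod_cast hN2
  -- n
  obtain ⟨n, hn⟩ : ∃ n : ℕ, n = ⌈y ^ 90 / q⌉₊ := ⟨_, rfl⟩
  have hyq : 0 < y ^ 90 / q := div_pos (h.pw0 90) q0
  have hn1 : y ^ 90 / q ≤ n := by rw [hn]; exact Nat.le_ceil _
  have hn2 : (n : ℝ) < y ^ 90 / q + 1 := by rw [hn]; exact Nat.ceil_lt_add_one hyq.le
  have hnq1 : y ^ 90 ≤ n * q := by rwa [div_le_iff₀ q0] at hn1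
  have hnq2 : (n : ℝ) * q ≤ y ^ 90 + q := by
    have := mul_lt_mul_of_pos_right hn2 q0
    rw [add_mul, div_mul_cancel₀ _ q0.ne', one_mul] at this
    exact this.le
  have hn0 : 1 ≤ n := by rw [hn]; exact Nat.ceil_pos.2 hyq
  have hn0r : (0 : ℝ) ≤ n := Nat.cast_nonneg n
  have hnN : n + 1 ≤ N := by
    have h2 : (n : ℝ) + 2 ≤ N := h.cnN hnq2 hm₂ hN2r
    have h3 : n + 2 ≤ N := by exact_mod_cast h2
    omega
  -- averages
  have havg : ∀ i : ℕ, i + n ≤ N →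
      2 * η * n ≤ ∑ j ∈ Finset.range n, -φ (x + ((i : ℝ) + (j : ℝ)) * β) := by
    intro i hi
    have h1 := tel hS.blk (i : ℤ) n
    rw [Int.cast_natCast] at h1
    rw [Finset.sum_neg_distrib, h1, neg_sub]
    have hni : (0 : ℤ) < n := by exact_mod_cast hn0
    have h3 := H1 ((i : ℤ) * q) (((i : ℤ) + n) * q)
      (mul_nonneg (Int.natCast_nonneg i) hqz.le) (by
        have h4 : (i : ℤ) < (i : ℤ) + n := by linarith
        exact mul_lt_mul_of_pos_right h4 hqz) (by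
      refine le_trans ?_ hN1
      refine mul_le_mul_of_nonneg_right ?_ hqz.le
      exact_mod_cast hi)
    refine le_trans ?_ h3
    have h4 : ((((i : ℤ) + n) * q : ℤ) : ℝ) - (((i : ℤ) * q : ℤ) : ℝ) = n * q := by
      push_cast; ring
    rw [h4]
    have h6 : 2 * η * n = (1 / 2) * ((n * q) * z) := by rw [hη]; ring
    rw [h6]
    exact h.cavg hnq1 e100 hlog
  have hstart : η ≤ -φ x := by
    refine start hS h hm₂ hlog H2 hNB hn0 hnq2 ?_
    have := havg 0 (by omega)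
    simpa using this
  -- the main inequality
  have hmain : ∀ s : ℝ, 0 ≤ s → s ≤ (N : ℝ) - n - 1 → η ≤ -φ (x + s * β) := by
    refine hcalc (fun s => -φ (x + s * β)) (fun s => -(φ₁ (x + s * β) * β))
      (fun s => -(φ₂ (x + s * β) * β * β))
      (K * q * β ^ 2) η n N (fun s => ?_) (fun s => ?_) (fun s => ?_) h.e0 hn0 hnN
      (h.cB hn0r hnq2) havg (by simpa using hstart)
    · have h1 : HasDerivAt (fun s : ℝ => x + s * β) β s := by
        simpa using ((hasDerivAt_id s).mul_const β).const_add x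
      exact ((hS.d1 (x + s * β)).comp s h1).neg
    · have h1 : HasDerivAt (fun s : ℝ => x + s * β) β s := by
        simpa using ((hasDerivAt_id s).mul_const β).const_add x
      exact (((hS.d2 (x + s * β)).comp s h1).mul_const β).neg
    · rw [abs_neg, abs_mul, abs_mul, abs_of_pos b0]
      have := hS.b2 (x + s * β)
      calc |φ₂ (x + s * β)| * β * β ≤ K * q * β * β := by
            refine mul_le_mul_of_nonneg_right (mul_le_mul_of_nonneg_right this b0.le) b0.le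
        _ = _ := by ring
  intro i hi1 hi2
  have hgoal : (1 / 8) * q * z = η / 2 := by rw [hη]; ring
  rw [hgoal]
  have e0 := h.e0
  rcases le_or_gt 0 i with hi | hi
  · have hi0 : (0 : ℝ) ≤ i := by exact_mod_cast hi
    have h1 : (i : ℝ) ≤ N - n - 1 := h.cend hnq2 hi2 hN2r
    have h2 := hmain i hi0 h1
    linarith
  · have hi0 : (i : ℝ) < 0 := by exact_mod_cast hi
    have h1 := lip hS.d1 hS.b1 (x + i * β) x
    rw [show x + (i : ℝ) * β - x = i * β by ring, abs_mul (i : ℝ) β, abs_of_neg hi0,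
      abs_of_pos b0] at h1
    have h2 : K * q * (-(i : ℝ) * β) ≤ η / 2 := h.cneg (by linarith)
    have h3 := (abs_le.1 (h1.trans h2)).2
    linarith

end Q2.LV.B2
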