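import Pool.Agent.Q2.VI.PolyG

/-!
Invariants with coefficients in an algebra over the finite field.
-/

set_option autoImplicit false
set_option linter.unusedSectionVars false

open Matrix MvPolynomial TensorProduct

universe u v

namespace Pool.Agent.Q2.LV

open Pool.Agent.Q2.VI

section sub

variable {F : Type v} [Field F] {ι : Type} [Fintype ι] {m : ℕ}

/-- The substitution `X i j ↦ ∑ l, g i l * X l j`. -/
noncomputable def so (O : Type u) [CommRing O] [Algebra F O] (m : ℕ) (g : Matrix ι ι F) :
    MvPolynomial (ι × Fin m) O →ₐ[O] MvPolynomial (ι × Fin m) O :=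
  aeval fun w => ∑ l, C (algebraMap F O (g w.1 l)) * X (l, w.2)

variable {O : Type u} [CommRing O] [Algebra F O]

lemma so_X (g : Matrix ι ι F) (i : ι) (j : Fin m) :
    so O m g (X (i, j)) = ∑ l, C (algebraMap F O (g i l)) * X (l, j) := by
  unfold so
  rw [aeval_X]

/-- The invariants of a set of matrices. -/
noncomputable def inv (O : Type u) [CommRing O] [Algebra F O] (m : ℕ)
    (H : Matrix ι ι F → Prop) : Subalgebra O (MvPolynomial (ι × Fin m) O) where
  carrier := {f | ∀ g, H g → so O m g f = f}
  mul_mem' := fun hx hy g hg => by rw [map_mul, hx g hg, hy g hg]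
  add_mem' := fun hx hy g hg => by rw [map_add, hx g hg, hy g hg]
  algebraMap_mem' := fun c g _ => AlgHom.commutes _ c

lemma mem_inv {H : Matrix ι ι F → Prop} {f : MvPolynomial (ι × Fin m) O} :
    f ∈ inv O m H ↔ ∀ g, H g → so O m g f = f := Iff.rfl

lemma so_map {O' : Type*} [CommRing O'] [Algebra F O'] [Algebra O O'] [IsScalarTower F O O']
    (g : Matrix ι ι F) (f : MvPolynomial (ι × Fin m) O) :
    so O' m g (map (algebraMap O O') f) = map (algebraMap O O') (so O m g f) := by
  induction f using MvPolynomial.induction_on with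
  | C a =>
    rw [map_C]
    have h1 : so O' m g (C (algebraMap O O' a)) = C (algebraMap O O' a) := AlgHom.commutes _ _
    have h2 : so O m g (C a) = C a := AlgHom.commutes _ _
    rw [h1, h2, map_C]
  | add p q hp hq => rw [map_add, map_add, map_add, map_add, hp, hq]
  | mul_X p w hp =>
    rw [map_mul, map_mul, map_mul, map_mul, hp, map_X]
    congr 1
    obtain ⟨i, j⟩ := w
    rw [so_X, so_X, map_sum]
    refine Finset.sum_congr rfl fun l _ => ?_
    rw [map_mul, map_C, map_X, ← IsScalarTower.algebraMap_apply]

/-- The invariants over `O` are spanned by the invariants over `F`. -/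
theorem inv_span {H : Matrix ι ι F → Prop} (f : MvPolynomial (ι × Fin m) O)
    (hf : f ∈ inv O m H) : f ∈ Submodule.span O (map (algebraMap F O) ''
      ((inv F m H : Subalgebra F (MvPolynomial (ι × Fin m) F)) : Set _)) := by
  classical
  let b := Module.Free.chooseBasis F O
  let e : O ⊗[F] MvPolynomial (ι × Fin m) F ≃ₐ[O] MvPolynomial (ι × Fin m) O :=
    algebraTensorAlgEquiv F O
  let z := e.symm f
  let zc := TensorProduct.equivFinsuppOfBasisLeft (N := MvPolynomial (ι × Fin m) F) b z
  -- the components are invariant
  have hcomm : ∀ (g : Matrix ι ι F) (y : O ⊗[F] MvPolynomial (ι × Fin m) F),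
      e (LinearMap.lTensor O (so F m g).toLinearMap y) = so O m g (e y) := by
    intro g y
    induction y with
    | zero => rw [map_zero, map_zero, map_zero]
    | tmul a p =>
      rw [LinearMap.lTensor_tmul]
      change e (a ⊗ₜ (so F m g p)) = _
      have h1 : ∀ p : MvPolynomial (ι × Fin m) F, e (a ⊗ₜ p) = a • map (algebraMap F O) p :=
        fun p => algebraTensorAlgEquiv_tmul F O a p
      rw [h1, h1, map_smul, so_map]
    | add x y hx hy => rw [map_add, map_add, map_add, map_add, hx, hy]
  have hc2 : ∀ (g : Matrix ι ι F) (y : O ⊗[F] MvPolynomial (ι × Fin m) F) i,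
      TensorProduct.equivFinsuppOfBasisLeft b
        (LinearMap.lTensor O (so F m g).toLinearMap y) i =
      so F m g (TensorProduct.equivFinsuppOfBasisLeft b y i) := by
    intro g y i
    induction y with
    | zero => rw [map_zero, map_zero, Finsupp.zero_apply, map_zero]
    | tmul a p =>
      rw [LinearMap.lTensor_tmul, TensorProduct.equivFinsuppOfBasisLeft_apply_tmul_apply,
        TensorProduct.equivFinsuppOfBasisLeft_apply_tmul_apply, map_smul]
      rfl
    | add x y hx hy =>
      rw [map_add, map_add, map_add, Finsupp.add_apply, Finsupp.add_apply, hx, hy, map_add]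
  have hzc : ∀ i, zc i ∈ (inv F m H : Subalgebra F (MvPolynomial (ι × Fin m) F)) := by
    intro i g hg
    have h1 : LinearMap.lTensor O (so F m g).toLinearMap z = z := by
      apply e.injective
      rw [hcomm]
      have h2 : e z = f := e.apply_symm_apply f
      rw [h2]
      exact hf g hg
    have h3 := hc2 g z i
    rw [h1] at h3
    exact h3.symm
  have hsum : f = ∑ i ∈ zc.support, b i • map (algebraMap F O) (zc i) := by
    have h1 : e z = f := e.apply_symm_apply f
    have h2 : z = zc.sum fun i n => b i ⊗ₜ n := by
      rw [← TensorProduct.equivFinsuppOfBasisLeft_symm_apply, LinearEquiv.symm_apply_apply]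
    rw [← h1, h2, Finsupp.sum, map_sum]
    refine Finset.sum_congr rfl fun i _ => ?_
    exact algebraTensorAlgEquiv_tmul F O (b i) (zc i)
  rw [hsum]
  exact Submodule.sum_mem _ fun i _ => Submodule.smul_mem _ _
    (Submodule.subset_span ⟨zc i, hzc i, rfl⟩)

lemma so_rename {ι' : Type} [Fintype ι'] (e : ι ≃ ι') (g : Matrix ι ι F)
    (f : MvPolynomial (ι × Fin m) O) :
    so O m (g.submatrix e.symm e.symm) (rename (fun w : ι × Fin m => (e w.1, w.2)) f) =
      rename (fun w : ι × Fin m => (e w.1, w.2)) (so O m g f) := by
  have h1 : (so O m (g.submatrix e.symm e.symm)).comp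
      (rename (fun w : ι × Fin m => (e w.1, w.2))) =
      (rename (fun w : ι × Fin m => (e w.1, w.2))).comp (so O m g) := by
    apply MvPolynomial.algHom_ext
    rintro ⟨i, j⟩
    change so O m (g.submatrix e.symm e.symm) (rename _ (X (i, j))) =
      rename _ (so O m g (X (i, j)))
    rw [rename_X, so_X, so_X, map_sum, ← e.sum_comp]
    refine Finset.sum_congr rfl fun l _ => ?_
    rw [map_mul, rename_C, rename_X, submatrix_apply, Equiv.symm_apply_apply,
      Equiv.symm_apply_apply]
  exact congrArg (fun φ : MvPolynomial (ι × Fin m) O →ₐ[O] MvPolynomial (ι' × Fin m) O => φ f) h1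

end sub

section fld

variable {F : Type v} {k : Type u} [Field F] [Fintype F] [Field k] [Algebra F k] {ι : Type}
  [Fintype ι] [DecidableEq ι] {m : ℕ}

lemma so_eq_sg (g : Matrix ι ι F) : so k m g = sg k m g := rfl

end fld

end Pool.Agent.Q2.LV
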