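import Pool.Agent.Q289.LV.Stm

/-! Project LV, job BC: Borel–Cantelli along `T = j^30`. -/

set_option autoImplicit false

open MeasureTheory Filter

namespace Q2.LV.Bc

open Q289.LV

theorem three_le_qn (n : ℕ) : 3 ≤ qn n := by
  unfold qn
  calc 3 = 3 ^ 1 := by norm_num
    _ ≤ 3 ^ n.factorial := Nat.pow_le_pow_right (by norm_num) n.factorial_pos

theorem le_qn (n : ℕ) : n ≤ qn n := by
  unfold qn
  calc n ≤ n.factorial := Nat.self_le_factorial n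
    _ ≤ 3 ^ n.factorial := (Nat.lt_pow_self (by norm_num)).le

theorem le_qn' (n : ℕ) : (n : ℝ) ≤ (qn n : ℝ) ^ (1.01 : ℝ) := by
  have h1 : (n : ℝ) ≤ qn n := by exact_mod_cast le_qn n
  have h2 : (1 : ℝ) ≤ qn n := by exact_mod_cast (by have := three_le_qn n; omega : 1 ≤ qn n)
  refine h1.trans ?_
  calc (qn n : ℝ) = (qn n : ℝ) ^ (1 : ℝ) := (Real.rpow_one _).symm
    _ ≤ _ := Real.rpow_le_rpow_of_exponent_le h2 (by norm_num)

/-- the level of `T` -/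
theorem level (n₀ : ℕ) (T : ℝ) (hT : (qn n₀ : ℝ) ^ (1.01 : ℝ) ≤ T) :
    ∃ n, n₀ ≤ n ∧ (qn n : ℝ) ^ (1.01 : ℝ) ≤ T ∧ T ≤ (qn (n + 1) : ℝ) ^ (1.01 : ℝ) := by
  classical
  have hex : ∃ m, T ≤ (qn (n₀ + m + 1) : ℝ) ^ (1.01 : ℝ) := by
    obtain ⟨m, hm⟩ := exists_nat_ge T
    refine ⟨m, hm.trans ?_⟩
    refine le_trans ?_ (le_qn' (n₀ + m + 1))
    push_cast
    have : (0 : ℝ) ≤ n₀ := Nat.cast_nonneg _
    linarith
  refine ⟨n₀ + Nat.find hex, Nat.le_add_right _ _, ?_, Nat.find_spec hex⟩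
  rcases Nat.eq_zero_or_pos (Nat.find hex) with h | h
  · rw [h, add_zero]; exact hT
  · have h1 := Nat.find_min hex (m := Nat.find hex - 1) (by omega)
    push Not at h1
    have h2 : n₀ + (Nat.find hex - 1) + 1 = n₀ + Nat.find hex := by omega
    rw [h2] at h1
    exact h1.le

theorem bc (he : S_Env) (hA : S_CaseA) (hB : S_CaseB) (hb : S_Bad) : S_BC := by
  intro p hp
  obtain ⟨κ, K, hκ, hK, n₀, hE⟩ := he p hp
  obtain ⟨TA, hTA⟩ := hA κ hκ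
  obtain ⟨TB, hTB⟩ := hB κ K hκ
  obtain ⟨N, hN⟩ := exists_nat_ge ((qn n₀ : ℝ) ^ (1.01 : ℝ))
  set j₀ : ℕ := max 1 (max N (max TA TB)) with hj₀
  have hj : ∀ j, j₀ ≤ j → 1 ≤ j ∧ N ≤ j ∧ TA ≤ j ∧ TB ≤ j := by
    intro j h
    simp only [hj₀, max_le_iff] at h
    omega
  have hpow : ∀ j : ℕ, 1 ≤ j → j ≤ j ^ 30 := fun j _ => Nat.le_self_pow (by norm_num) j
  -- the bad sets
  set s : ℤ → ℕ → Set ℝ := fun a j => {x | j₀ ≤ j ∧ x ∈ Set.Icc (a : ℝ) (a + 1) ∧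
    ¬ (Good (env p x) (j ^ 30) ∨ ¬ SplitR (env p x) (j ^ 30))} with hs
  have hmeas : ∀ (a : ℤ) (j : ℕ), volume (s a j) ≤ ENNReal.ofReal (3 * K * (j : ℝ) ^ (-1.2 : ℝ)) := by
    intro a j
    by_cases hjj : j₀ ≤ j
    swap
    · have : s a j = ∅ := by
        ext x; simp [hs, hjj]
      rw [this, measure_empty]; exact bot_le
    obtain ⟨h1, h2, h3, h4⟩ := hj j hjj
    have hT : N ≤ j ^ 30 := h2.trans (hpow j h1)
    have hTr : (qn n₀ : ℝ) ^ (1.01 : ℝ) ≤ ((j ^ 30 : ℕ) : ℝ) := hN.trans (by exact_mod_cast hT)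
    obtain ⟨n, hn, hn1, hn2⟩ := level n₀ _ hTr
    obtain ⟨β, φ, φ₁, φ₂, hx⟩ := hE n (j ^ 30) hn hn1 hn2
    have hq3 : (3 : ℝ) ≤ qn n := by exact_mod_cast three_le_qn n
    have hq0 : (0 : ℝ) < qn n := by linarith
    rcases le_total ((j ^ 30 : ℕ) : ℝ) ((qn n : ℝ) ^ 30) with hc | hc
    · -- case A
      have : s a j = ∅ := by
        ext x
        simp only [hs, Set.mem_ofPred_eq, Set.mem_empty_iff_false, iff_false, not_and, not_not]
        intro _ _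
        left
        obtain ⟨V, hV, -⟩ := hx x
        obtain ⟨hV1, hV2⟩ := hV hc
        have h5 := hTA (j ^ 30) (qn n) (env p x) V (h3.trans (hpow j h1))
          (by have := three_le_qn n; omega) hV1 hn1 hV2
        refine ⟨0, ?_⟩
        have h6 : (fun k : ℤ => ((k : ℝ) - 0) ^ 2) = fun k : ℤ => (k : ℝ) ^ 2 := by
          funext k; rw [sub_zero]
        rw [h6]
        refine h5.trans ?_
        have h7 : 0 ≤ ((j ^ 30 : ℕ) : ℝ) ^ (1.985 : ℝ) := Real.rpow_nonneg (Nat.cast_nonneg _) _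
        linarith
      rw [this, measure_empty]; exact bot_le
    · -- case B
      have hTpos : (0 : ℝ) < ((j ^ 30 : ℕ) : ℝ) := by
        have : 0 < j ^ 30 := by positivity
        exact_mod_cast this
      have hsub : s a j ⊆ {y : ℝ | y ∈ Set.Icc (a : ℝ) (a + 1) ∧
          |φ y| < (1 / 4) * qn n * ((j ^ 30 : ℕ) : ℝ) ^ (-0.1 : ℝ) ∧
          qn n * ((j ^ 30 : ℕ) : ℝ) ^ (-0.03 : ℝ) < |φ₁ y|} := by
        rintro x ⟨_, hxI, hbad⟩
        refine ⟨hxI, ?_⟩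
        by_contra hnb
        apply hbad
        right
        obtain ⟨V, -, hV⟩ := hx x
        exact hTB (j ^ 30) (qn n) β x (env p x) V φ φ₁ φ₂ (h4.trans (hpow j h1)) (hV hc) hnb
      obtain ⟨V, -, hV⟩ := hx 0
      have hSB := hV hc
      have h5 := hb φ φ₁ φ₂ (K * qn n) ((1 / 4) * qn n * ((j ^ 30 : ℕ) : ℝ) ^ (-0.1 : ℝ))
        (qn n * ((j ^ 30 : ℕ) : ℝ) ^ (-0.03 : ℝ)) a hSB.d1 hSB.d2 hSB.b1 hSB.b2
        (by have := Real.rpow_pos_of_pos hTpos (-0.1 : ℝ); positivity)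
        (by have := Real.rpow_pos_of_pos hTpos (-0.03 : ℝ); positivity)
      refine (measure_mono hsub).trans (h5.trans (le_of_eq ?_))
      congr 1
      have hj0 : (0 : ℝ) < j := by exact_mod_cast h1
      have e0 : ((j ^ 30 : ℕ) : ℝ) = (j : ℝ) ^ (30 : ℝ) := by
        push_cast
        rw [← Real.rpow_natCast]; norm_num
      have e1 : ((j ^ 30 : ℕ) : ℝ) ^ (-0.1 : ℝ) = (j : ℝ) ^ (-3 : ℝ) := by
        rw [e0, ← Real.rpow_mul hj0.le]; norm_num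
      have e2 : ((j ^ 30 : ℕ) : ℝ) ^ (-0.03 : ℝ) = (j : ℝ) ^ (-0.9 : ℝ) := by
        rw [e0, ← Real.rpow_mul hj0.le]; norm_num
      have e3 : (j : ℝ) ^ (-3 : ℝ) = (j : ℝ) ^ (-1.2 : ℝ) * ((j : ℝ) ^ (-0.9 : ℝ)) ^ 2 := by
        rw [← Real.rpow_natCast, ← Real.rpow_mul hj0.le, ← Real.rpow_add hj0]
        norm_num
      rw [e1, e2, e3]
      have h6 : 0 < (j : ℝ) ^ (-0.9 : ℝ) := Real.rpow_pos_of_pos hj0 _
      field_simp
      ring
  have hsum : Summable fun j : ℕ => 3 * K * (j : ℝ) ^ (-1.2 : ℝ) :=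
    (Real.summable_nat_rpow.2 (by norm_num)).mul_left _
  have hae : ∀ a : ℤ, ∀ᵐ x : ℝ, ∀ᶠ j in atTop, x ∉ s a j := by
    intro a
    refine ae_eventually_notMem ?_
    refine ne_top_of_le_ne_top hsum.tsum_ofReal_ne_top ?_
    exact ENNReal.tsum_le_tsum fun j => hmeas a j
  have hall := ae_all_iff.2 hae
  filter_upwards [hall] with x hx
  have h1 := hx ⌊x⌋
  filter_upwards [h1, eventually_ge_atTop j₀] with j hj1 hj2
  by_contra hcon
  exact hj1 ⟨hj2, ⟨Int.floor_le x, (Int.lt_floor_add_one x).le⟩, hcon⟩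

end Q2.LV.Bc
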