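import Pool.Agent.Q289.LV.Stm

/-! Project LV, job CAR: the Varadhan–Carne bound. -/

set_option autoImplicit false

namespace Q2.LV.Car

open Q289.LV

/-- finite support -/
def FS (f : ℤ → ℝ) : Prop := (Function.support f).Finite

/-- the scalar product -/
noncomputable def S (π f g : ℤ → ℝ) : ℝ := ∑' k, π k * f k * g k

theorem FS.summable {f : ℤ → ℝ} (hf : FS f) (π g : ℤ → ℝ) :
    Summable fun k => π k * f k * g k := by
  refine summable_of_hasFiniteSupport (Set.Finite.subset hf fun k hk => ?_)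
  rw [Function.mem_support] at hk ⊢
  intro h
  exact hk (by rw [h]; ring)

theorem FS.comb {f g : ℤ → ℝ} (hf : FS f) (hg : FS g) (a b : ℝ) :
    FS fun k => a * f k + b * g k := by
  refine Set.Finite.subset (hf.union hg) fun k hk => ?_
  by_contra h
  simp only [Set.mem_union, Function.mem_support, not_or, not_not] at h
  exact hk (by simp [h.1, h.2])

theorem FS.shift {f : ℤ → ℝ} (hf : FS f) (c : ℤ) : FS fun k => f (k + c) := by
  have : Function.support (fun k => f (k + c)) = (fun k => k + c) ⁻¹' Function.support f := rfl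
  unfold FS
  rw [this]
  exact hf.preimage (add_left_injective c).injOn

theorem FS.mulL {f : ℤ → ℝ} (hf : FS f) (g : ℤ → ℝ) : FS fun k => g k * f k := by
  refine Set.Finite.subset hf fun k hk => ?_
  rw [Function.mem_support] at hk ⊢
  intro h
  exact hk (by rw [h, mul_zero])

theorem FS.pop {f : ℤ → ℝ} (hf : FS f) (w : ℤ → ℝ) : FS (Pop w f) := by
  have h1 : FS fun k => w k * f (k + 1) := (hf.shift 1).mulL w
  have h2 : FS fun k => (1 - w k) * f (k - 1) := (hf.shift (-1)).mulL (fun k => 1 - w k)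
  have h3 := h1.comb h2 1 1
  simp only [one_mul] at h3
  exact h3

theorem S_comm (π f g : ℤ → ℝ) : S π f g = S π g f := by
  unfold S
  refine tsum_congr fun k => ?_
  ring

theorem S_lin {π x y : ℤ → ℝ} (hx : FS x) (hy : FS y) (z : ℤ → ℝ) (a b : ℝ) :
    S π (fun k => a * x k + b * y k) z = a * S π x z + b * S π y z := by
  unfold S
  rw [← tsum_mul_left, ← tsum_mul_left,
    ← ((hx.summable π z).mul_left a).tsum_add ((hy.summable π z).mul_left b)]
  refine tsum_congr fun k => ?_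
  ring

theorem S_sq {π x y : ℤ → ℝ} (hx : FS x) (hy : FS y) (a b : ℝ) :
    S π (fun k => a * x k + b * y k) (fun k => a * x k + b * y k) =
      a ^ 2 * S π x x + 2 * a * b * S π x y + b ^ 2 * S π y y := by
  rw [S_lin hx hy, S_comm π x, S_comm π y, S_lin hx hy, S_lin hx hy, S_comm π y x]
  ring

/-- reversibility -/
structure Rev (w π c : ℤ → ℝ) : Prop where
  r1 : ∀ k, π k * w k = c k
  r2 : ∀ k, π (k + 1) * (1 - w (k + 1)) = c k
  pos : ∀ k, 0 < π k
  w0 : ∀ k, 0 ≤ w k ∧ w k ≤ 1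

variable {w π c : ℤ → ℝ}

theorem Rev.r2' (h : Rev w π c) (k : ℤ) : π k * (1 - w k) = c (k - 1) := by
  have := h.r2 (k - 1)
  simpa using this

theorem tsum_shift (f : ℤ → ℝ) (a : ℤ) : ∑' k, f (k + a) = ∑' k, f k :=
  (Equiv.addRight a).tsum_eq f

theorem pop_form (h : Rev w π c) {f g : ℤ → ℝ} (hf : FS f) :
    S π (Pop w f) g = ∑' k, c k * f (k + 1) * g k + ∑' k, c k * f k * g (k + 1) := by
  have s1 : Summable fun k => c k * f (k + 1) * g k := (hf.shift 1).summable c g
  have s2 : Summable fun k => c (k - 1) * f (k - 1) * g k :=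
    (hf.shift (-1)).summable (fun k => c (k - 1)) g
  have e2 : ∑' k, c k * f k * g (k + 1) = ∑' k, c (k - 1) * f (k - 1) * g k := by
    rw [← tsum_shift (fun k => c (k - 1) * f (k - 1) * g k) 1]
    refine tsum_congr fun k => ?_
    simp
  rw [e2, ← s1.tsum_add s2]
  unfold S
  refine tsum_congr fun k => ?_
  unfold Pop
  rw [← h.r1 k, ← h.r2' k]
  ring

theorem pop_symm (h : Rev w π c) {f g : ℤ → ℝ} (hf : FS f) (hg : FS g) :
    S π (Pop w f) g = S π f (Pop w g) := by
  rw [S_comm π f, pop_form h hf, pop_form h hg, add_comm]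
  congr 1
  · exact tsum_congr fun k => by ring
  · exact tsum_congr fun k => by ring

theorem pop_sq (h : Rev w π c) {f : ℤ → ℝ} (hf : FS f) :
    S π (Pop w f) (Pop w f) ≤ S π f f := by
  have h2 : FS fun k => f k * f k := hf.mulL f
  have s1 : Summable fun k => c k * f (k + 1) * f (k + 1) :=
    (hf.shift 1).summable c (fun k => f (k + 1))
  have s1' : Summable fun k => c k * f k * f k := hf.summable c f
  have s2 : Summable fun k => c (k - 1) * f (k - 1) * f (k - 1) :=
    (hf.shift (-1)).summable (fun k => c (k - 1)) (fun k => f (k - 1))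
  have s2' : Summable fun k => c (k - 1) * f k * f k := hf.summable (fun k => c (k - 1)) f
  have e1 : ∑' k, c (k - 1) * f (k - 1) * f (k - 1) = ∑' k, c k * f k * f k := by
    rw [← tsum_shift (fun k => c (k - 1) * f (k - 1) * f (k - 1)) 1]
    refine tsum_congr fun k => ?_
    simp
  have e2 : ∑' k, c k * f (k + 1) * f (k + 1) = ∑' k, c (k - 1) * f k * f k := by
    rw [← tsum_shift (fun k => c (k - 1) * f k * f k) 1]
    refine tsum_congr fun k => ?_
    simp
  have e3 : S π f f = ∑' k, (c k * f (k + 1) * f (k + 1) +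
      c (k - 1) * f (k - 1) * f (k - 1)) := by
    rw [s1.tsum_add s2, e1, e2, ← s2'.tsum_add s1']
    unfold S
    refine tsum_congr fun k => ?_
    rw [← h.r1 k, ← h.r2' k]
    ring
  rw [e3]
  unfold S
  refine Summable.tsum_le_tsum (fun k => ?_) ((hf.pop w).summable π _) (s1.add s2)
  unfold Pop
  rw [← h.r1 k, ← h.r2' k]
  have hp := h.pos k
  obtain ⟨h0, h1⟩ := h.w0 k
  have key : (w k * f (k + 1) + (1 - w k) * f (k - 1)) * (w k * f (k + 1) + (1 - w k) * f (k - 1)) ≤
      w k * f (k + 1) * f (k + 1) + (1 - w k) * f (k - 1) * f (k - 1) := by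
    nlinarith [mul_nonneg h0 (sub_nonneg.2 h1),
      mul_nonneg (mul_nonneg h0 (sub_nonneg.2 h1)) (sq_nonneg (f (k + 1) - f (k - 1)))]
  calc _ = π k * ((w k * f (k + 1) + (1 - w k) * f (k - 1)) *
        (w k * f (k + 1) + (1 - w k) * f (k - 1))) := by ring
    _ ≤ π k * (w k * f (k + 1) * f (k + 1) + (1 - w k) * f (k - 1) * f (k - 1)) :=
        mul_le_mul_of_nonneg_left key hp.le
    _ = _ := by ring

/-! ### Chebyshev sequences -/

/-- second kind (shifted by one) -/
noncomputable def U (w f : ℤ → ℝ) : ℕ → ℤ → ℝ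
  | 0 => fun _ => 0
  | 1 => f
  | (j + 2) => fun k => 2 * Pop w (U w f (j + 1)) k + (-1) * U w f j k

/-- first kind -/
noncomputable def Tc (w f : ℤ → ℝ) (j : ℕ) : ℤ → ℝ := fun k =>
  1 * U w f (j + 1) k + (-1) * Pop w (U w f j) k

theorem U_fs (w : ℤ → ℝ) {f : ℤ → ℝ} (hf : FS f) : ∀ j, FS (U w f j) ∧ FS (U w f (j + 1)) := by
  intro j
  induction j with
  | zero => exact ⟨by simp [FS, U, Function.support], hf⟩
  | succ j ih => exact ⟨ih.2, (ih.2.pop w).comb ih.1 2 (-1)⟩

theorem energy (h : Rev w π c) {f : ℤ → ℝ} (hf : FS f) (j : ℕ) :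
    S π (U w f (j + 1)) (U w f (j + 1)) + S π (U w f j) (U w f j) -
      2 * S π (Pop w (U w f j)) (U w f (j + 1)) = S π f f := by
  induction j with
  | zero =>
    have e1 : Pop w (U w f 0) = fun _ => 0 := by
      funext k; simp [Pop, U]
    rw [e1]
    simp [S, U]
  | succ j ih =>
    obtain ⟨f0, f1⟩ := U_fs w hf j
    have fp := f1.pop w
    rw [← ih]
    have e1 : U w f (j + 1 + 1) = fun k => 2 * Pop w (U w f (j + 1)) k + (-1) * U w f j k := rfl
    rw [e1, S_sq fp f0, S_comm π (Pop w (U w f (j + 1))) (fun k => 2 * Pop w (U w f (j + 1)) k +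
      (-1) * U w f j k), S_lin fp f0, S_comm π (U w f j) (Pop w (U w f (j + 1))),
      pop_symm h f1 f0, S_comm π (U w f (j + 1)) (Pop w (U w f j))]
    ring

theorem T_norm (h : Rev w π c) {f : ℤ → ℝ} (hf : FS f) (j : ℕ) :
    S π (Tc w f j) (Tc w f j) ≤ S π f f := by
  obtain ⟨f0, f1⟩ := U_fs w hf j
  unfold Tc
  rw [S_sq f1 (f0.pop w), ← energy h hf j, S_comm π (U w f (j + 1)) (Pop w (U w f j))]
  have := pop_sq h f0
  linarith

theorem T_pt (h : Rev w π c) {f : ℤ → ℝ} (hf : FS f) (j : ℕ) (a : ℤ) :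
    π a * (Tc w f j a) ^ 2 ≤ S π f f := by
  obtain ⟨f0, f1⟩ := U_fs w hf j
  have hT : FS (Tc w f j) := f1.comb (f0.pop w) 1 (-1)
  refine le_trans ?_ (T_norm h hf j)
  have h1 := (hT.summable π (Tc w f j)).le_tsum a (fun k _ => by
    have := (h.pos k).le
    have h2 : π k * Tc w f j k * Tc w f j k = π k * (Tc w f j k) ^ 2 := by ring
    rw [h2]; positivity)
  unfold S
  calc π a * (Tc w f j a) ^ 2 = π a * Tc w f j a * Tc w f j a := by ring
    _ ≤ _ := h1

theorem pop_comb (w f g : ℤ → ℝ) (a b : ℝ) :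
    Pop w (fun k => a * f k + b * g k) = fun k => a * Pop w f k + b * Pop w g k := by
  funext k; unfold Pop; ring

theorem T_zero (w f : ℤ → ℝ) : Tc w f 0 = f := by
  funext k; simp [Tc, U, Pop]

theorem T_one (w f : ℤ → ℝ) : Pop w (Tc w f 0) = Tc w f 1 := by
  rw [T_zero]
  funext k
  simp only [Tc, U]
  ring

theorem T_rec (w f : ℤ → ℝ) (j : ℕ) :
    Pop w (Tc w f (j + 1)) = fun k => (1 / 2) * Tc w f (j + 2) k + (1 / 2) * Tc w f j k := by
  have e1 : Tc w f (j + 1) = fun k => 1 * U w f (j + 2) k + (-1) * Pop w (U w f (j + 1)) k := rfl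
  have e2 : U w f (j + 2) = fun k => 2 * Pop w (U w f (j + 1)) k + (-1) * U w f j k := rfl
  have e3 : U w f (j + 3) = fun k => 2 * Pop w (U w f (j + 2)) k + (-1) * U w f (j + 1) k := rfl
  rw [e1, pop_comb]
  funext k
  have e4 : Pop w (U w f (j + 2)) k = 2 * Pop w (Pop w (U w f (j + 1))) k +
      (-1) * Pop w (U w f j) k := by
    rw [e2]
    exact congrFun (pop_comb w (Pop w (U w f (j + 1))) (U w f j) 2 (-1)) k
  have e5 : Tc w f (j + 2) k = 1 * U w f (j + 3) k + (-1) * Pop w (U w f (j + 2)) k := rfl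
  have e6 : Tc w f j k = 1 * U w f (j + 1) k + (-1) * Pop w (U w f j) k := rfl
  rw [e5, e6, e3]
  simp only
  linear_combination (1 / 2 : ℝ) * e4

theorem U_zero (w : ℤ → ℝ) {f : ℤ → ℝ} {b : ℤ} (hf : ∀ k, k ≠ b → f k = 0) :
    ∀ j : ℕ, (∀ a : ℤ, (j : ℤ) ≤ |a - b| → U w f j a = 0) ∧
      (∀ a : ℤ, (j : ℤ) + 1 ≤ |a - b| → U w f (j + 1) a = 0) := by
  intro j
  induction j with
  | zero =>
    refine ⟨fun a _ => rfl, fun a ha => hf a ?_⟩
    rintro rfl
    simp at ha
  | succ j ih =>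
    refine ⟨fun a ha => ih.2 a (by exact_mod_cast ha), fun a ha => ?_⟩
    show 2 * Pop w (U w f (j + 1)) a + (-1) * U w f j a = 0
    push_cast at ha
    have h1 : U w f (j + 1) (a + 1) = 0 := ih.2 _ (by
      have : |a - b| ≤ |a + 1 - b| + 1 := by
        have := abs_sub_abs_le_abs_sub (a - b) (a + 1 - b)
        have h2 : |a - b - (a + 1 - b)| = 1 := by
          rw [show a - b - (a + 1 - b) = -1 by ring]; rfl
        omega
      omega)
    have h2 : U w f (j + 1) (a - 1) = 0 := ih.2 _ (by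
      have : |a - b| ≤ |a - 1 - b| + 1 := by
        have := abs_sub_abs_le_abs_sub (a - b) (a - 1 - b)
        have h2 : |a - b - (a - 1 - b)| = 1 := by
          rw [show a - b - (a - 1 - b) = 1 by ring]; rfl
        omega
      omega)
    rw [ih.1 a (by omega)]
    unfold Pop
    rw [h1, h2]
    ring

theorem Tc_zero (w : ℤ → ℝ) {f : ℤ → ℝ} {b : ℤ} (hf : ∀ k, k ≠ b → f k = 0) (j : ℕ) (a : ℤ)
    (h : (j : ℤ) < |a - b|) : Tc w f j a = 0 := by
  have h0 := U_zero w hf j
  unfold Tc Pop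
  rw [h0.2 a (by omega), h0.1 (a + 1) ?_, h0.1 (a - 1) ?_]
  · ring
  · have := abs_sub_abs_le_abs_sub (a - b) (a - 1 - b)
    have h2 : |a - b - (a - 1 - b)| = 1 := by
      rw [show a - b - (a - 1 - b) = 1 by ring]; rfl
    omega
  · have := abs_sub_abs_le_abs_sub (a - b) (a + 1 - b)
    have h2 : |a - b - (a + 1 - b)| = 1 := by
      rw [show a - b - (a + 1 - b) = -1 by ring]; rfl
    omega

theorem Ex_comb (w f g : ℤ → ℝ) (a b : ℝ) (t : ℕ) :
    Ex w t (fun k => a * f k + b * g k) = fun k => a * Ex w t f k + b * Ex w t g k := by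
  induction t with
  | zero => rfl
  | succ t ih =>
    show Pop w (Ex w t _) = _
    rw [ih, pop_comb]
    rfl

theorem Ex_pop (w f : ℤ → ℝ) (t : ℕ) : Ex w (t + 1) f = Ex w t (Pop w f) := by
  induction t with
  | zero => rfl
  | succ t ih =>
    show Pop w (Ex w (t + 1) f) = Pop w (Ex w t (Pop w f))
    rw [ih]

/-- the recursion in the index `j ∈ ℤ` -/
theorem T_int (w f : ℤ → ℝ) (j : ℤ) : Pop w (Tc w f j.natAbs) =
    fun k => (1 / 2) * Tc w f (j + 1).natAbs k + (1 / 2) * Tc w f (j - 1).natAbs k := by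
  rcases lt_trichotomy j 0 with h | h | h
  · obtain ⟨i, hi⟩ : ∃ i : ℕ, j = -((i : ℤ) + 1) := ⟨(-j - 1).toNat, by omega⟩
    have h1 : j.natAbs = i + 1 := by omega
    have h2 : (j + 1).natAbs = i := by omega
    have h3 : (j - 1).natAbs = i + 2 := by omega
    rw [h1, h2, h3, T_rec]
    funext k; ring
  · subst h
    have h2 : ((0 : ℤ) + 1).natAbs = 1 := rfl
    have h3 : ((0 : ℤ) - 1).natAbs = 1 := rfl
    rw [h2, h3, show (0 : ℤ).natAbs = 0 from rfl, T_one]
    funext k; ring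
  · obtain ⟨i, hi⟩ : ∃ i : ℕ, j = (i : ℤ) + 1 := ⟨(j - 1).toNat, by omega⟩
    have h1 : j.natAbs = i + 1 := by omega
    have h2 : (j + 1).natAbs = i + 2 := by omega
    have h3 : (j - 1).natAbs = i := by omega
    rw [h1, h2, h3, T_rec]

theorem bound (w f : ℤ → ℝ) (a : ℤ) (M θ : ℝ) (d : ℕ) (hM : 0 ≤ M) (hθ : 0 ≤ θ)
    (h1 : ∀ j, |Tc w f j a| ≤ M) (h0 : ∀ j : ℕ, j < d → Tc w f j a = 0) (t : ℕ) :
    ∀ j : ℤ, |Ex w t (Tc w f j.natAbs) a| ≤
      M * (Real.exp (-θ * d) * Real.cosh θ ^ t * (Real.exp (θ * j) + Real.exp (-θ * j))) := by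
  induction t with
  | zero =>
    intro j
    show |Tc w f j.natAbs a| ≤ _
    by_cases hj : j.natAbs < d
    · rw [h0 _ hj, abs_zero]
      positivity
    · push Not at hj
      refine (h1 _).trans (le_mul_of_one_le_right hM ?_)
      rw [pow_zero, mul_one]
      have hd : (d : ℝ) ≤ |(j : ℝ)| := by
        rw [← Int.cast_abs, Int.abs_eq_natAbs]
        exact_mod_cast hj
      have e1 : Real.exp (θ * |(j : ℝ)|) ≤ Real.exp (θ * j) + Real.exp (-θ * j) := by
        rcases abs_cases (j : ℝ) with ⟨h, -⟩ | ⟨h, -⟩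
        · rw [h]; linarith [Real.exp_pos (-θ * j)]
        · rw [h, show θ * -(j : ℝ) = -θ * j by ring]; linarith [Real.exp_pos (θ * j)]
      calc (1 : ℝ) = Real.exp (-θ * d) * Real.exp (θ * d) := by
            rw [← Real.exp_add]; simp
        _ ≤ Real.exp (-θ * d) * Real.exp (θ * |(j : ℝ)|) := by
            refine mul_le_mul_of_nonneg_left (Real.exp_le_exp.2 ?_) (Real.exp_pos _).le
            exact mul_le_mul_of_nonneg_left hd hθ
        _ ≤ _ := mul_le_mul_of_nonneg_left e1 (Real.exp_pos _).le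
  | succ t ih =>
    intro j
    rw [Ex_pop, T_int, Ex_comb]
    have i1 := ih (j + 1)
    have i2 := ih (j - 1)
    have e1 : |1 / 2 * Ex w t (Tc w f (j + 1).natAbs) a +
        1 / 2 * Ex w t (Tc w f (j - 1).natAbs) a| ≤
        1 / 2 * |Ex w t (Tc w f (j + 1).natAbs) a| + 1 / 2 * |Ex w t (Tc w f (j - 1).natAbs) a| := by
      refine (abs_add_le _ _).trans (le_of_eq ?_)
      rw [abs_mul, abs_mul, abs_of_pos (by norm_num : (0 : ℝ) < 1 / 2)]
    refine e1.trans ?_
    have e2 : Real.exp (θ * ((j + 1 : ℤ) : ℝ)) = Real.exp (θ * j) * Real.exp θ := by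
      rw [← Real.exp_add]; push_cast; ring_nf
    have e3 : Real.exp (-θ * ((j + 1 : ℤ) : ℝ)) = Real.exp (-θ * j) * Real.exp (-θ) := by
      rw [← Real.exp_add]; push_cast; ring_nf
    have e4 : Real.exp (θ * ((j - 1 : ℤ) : ℝ)) = Real.exp (θ * j) * Real.exp (-θ) := by
      rw [← Real.exp_add]; push_cast; ring_nf
    have e5 : Real.exp (-θ * ((j - 1 : ℤ) : ℝ)) = Real.exp (-θ * j) * Real.exp θ := by
      rw [← Real.exp_add]; push_cast; ring_nf
    rw [e2, e3] at i1
    rw [e4, e5] at i2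
    have e6 : Real.cosh θ = (Real.exp θ + Real.exp (-θ)) / 2 := Real.cosh_eq θ
    calc _ ≤ 1 / 2 * (M * (Real.exp (-θ * d) * Real.cosh θ ^ t *
          (Real.exp (θ * j) * Real.exp θ + Real.exp (-θ * j) * Real.exp (-θ)))) +
          1 / 2 * (M * (Real.exp (-θ * d) * Real.cosh θ ^ t *
          (Real.exp (θ * j) * Real.exp (-θ) + Real.exp (-θ * j) * Real.exp θ))) := by linarith
      _ = M * (Real.exp (-θ * d) * (Real.cosh θ ^ t * ((Real.exp θ + Real.exp (-θ)) / 2)) *
          (Real.exp (θ * j) + Real.exp (-θ * j))) := by ring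
      _ = _ := by rw [← e6, ← pow_succ]

theorem car : S_Car := by
  intro κ w V hE t a b ht
  have hκ := hE.pos
  have hκ1 : κ ≤ 1 / 2 := by linarith [hE.lo 0, hE.hi 0]
  have hwpos : ∀ k, 0 < w k := fun k => lt_of_lt_of_le hκ (hE.lo k)
  have hw1 : ∀ k, w k < 1 := fun k => lt_of_le_of_lt (hE.hi k) (by linarith)
  set π : ℤ → ℝ := fun k => Real.exp (-V k) / w k with hπ
  have hrev : Rev w π (fun k => Real.exp (-V k)) := by
    refine ⟨fun k => ?_, fun k => ?_, fun k => ?_, fun k => ⟨(hwpos k).le, (hw1 k).le⟩⟩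
    · simp only [hπ]
      field_simp [(hwpos k).ne']
    · simp only [hπ]
      have h1 : Real.exp (V (k + 1) - V k) = (1 - w (k + 1)) / w (k + 1) := by
        rw [hE.pot k, Real.exp_log (div_pos (by linarith [hw1 (k + 1)]) (hwpos _))]
      have h2 : Real.exp (-V k) = Real.exp (-V (k + 1)) * Real.exp (V (k + 1) - V k) := by
        rw [← Real.exp_add]; ring_nf
      rw [h2, h1]
      ring
    · exact div_pos (Real.exp_pos _) (hwpos k)
  set f : ℤ → ℝ := one b with hf
  have hf0 : ∀ k, k ≠ b → f k = 0 := fun k hk => by simp [hf, one, hk]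
  have hfs : FS f := (Set.finite_singleton b).subset fun k hk => by
    by_contra h
    exact hk (hf0 k h)
  have hff : S π f f = π b := by
    unfold S
    rw [tsum_eq_single b (fun k hk => by rw [hf0 k hk]; ring)]
    simp [hf, one]
  set M : ℝ := (1 / κ) * Real.exp ((V a - V b) / 2) with hM
  have hM0 : 0 ≤ M := by positivity
  have h1 : ∀ j, |Tc w f j a| ≤ M := by
    intro j
    have h2 := T_pt hrev hfs j a
    rw [hff] at h2
    have h3 : (Tc w f j a) ^ 2 ≤ M ^ 2 := by
      have h4 : (Tc w f j a) ^ 2 ≤ π b / π a := by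
        rw [le_div_iff₀ (hrev.pos a)]; linarith
      refine h4.trans ?_
      have h5 : π b / π a = Real.exp (V a - V b) * (w a / w b) := by
        simp only [hπ]
        rw [show V a - V b = -V b - -V a by ring, Real.exp_sub]
        field_simp [(hwpos a).ne', (hwpos b).ne', (Real.exp_pos (-V a)).ne']
      rw [h5]
      have h6 : M ^ 2 = Real.exp (V a - V b) * (1 / κ ^ 2) := by
        rw [hM, mul_pow, ← Real.exp_nat_mul]
        rw [show ((2 : ℕ) : ℝ) * ((V a - V b) / 2) = V a - V b by push_cast; ring]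
        ring
      rw [h6]
      refine mul_le_mul_of_nonneg_left ?_ (Real.exp_pos _).le
      have h7 : w a / w b ≤ 1 / κ := by
        rw [div_le_div_iff₀ (hwpos b) hκ]
        have := hE.lo b
        have := hw1 a
        have := hwpos a
        nlinarith
      refine h7.trans ?_
      rw [div_le_div_iff₀ hκ (by positivity)]
      nlinarith
    exact abs_le_of_sq_le_sq h3 hM0
  have hd : ∀ j : ℕ, j < (a - b).natAbs → Tc w f j a = 0 := fun j hj =>
    Tc_zero w hf0 j a (by rw [Int.abs_eq_natAbs]; exact_mod_cast hj)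
  have ht0 : (0 : ℝ) < t := by exact_mod_cast ht
  set d : ℕ := (a - b).natAbs with hdd
  have hdr : (d : ℝ) ^ 2 = ((b : ℝ) - a) ^ 2 := by
    have h2 : ((d : ℤ) : ℝ) = |((a - b : ℤ) : ℝ)| := by
      rw [← Int.cast_abs, Int.abs_eq_natAbs]
    have h3 : (d : ℝ) = |((a - b : ℤ) : ℝ)| := by rw [← h2]; simp
    rw [h3, sq_abs]; push_cast; ring
  have key := bound w f a M (d / t) d hM0 (by positivity) h1 hd t 0
  simp only [Int.natAbs_zero, T_zero, Int.cast_zero, mul_zero, Real.exp_zero] at key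
  refine (le_abs_self _).trans (key.trans ?_)
  have hc : Real.cosh ((d : ℝ) / t) ^ t ≤ Real.exp ((d : ℝ) ^ 2 / (2 * t)) := by
    have h2 := Real.cosh_le_exp_half_sq ((d : ℝ) / t)
    calc Real.cosh ((d : ℝ) / t) ^ t ≤ (Real.exp (((d : ℝ) / t) ^ 2 / 2)) ^ t :=
          pow_le_pow_left₀ (Real.cosh_pos _).le h2 t
      _ = _ := by
          rw [← Real.exp_nat_mul]
          congr 1
          field_simp
  have hfin : Real.exp (-((d : ℝ) / t) * d) * Real.cosh ((d : ℝ) / t) ^ t ≤
      Real.exp (-((b : ℝ) - a) ^ 2 / (2 * t)) := by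
    calc _ ≤ Real.exp (-((d : ℝ) / t) * d) * Real.exp ((d : ℝ) ^ 2 / (2 * t)) :=
          mul_le_mul_of_nonneg_left hc (Real.exp_pos _).le
      _ = _ := by
          rw [← Real.exp_add, ← hdr]
          congr 1
          field_simp
          ring
  calc M * (Real.exp (-((d : ℝ) / t) * d) * Real.cosh ((d : ℝ) / t) ^ t * (1 + 1))
      ≤ M * (Real.exp (-((b : ℝ) - a) ^ 2 / (2 * t)) * (1 + 1)) := by
        refine mul_le_mul_of_nonneg_left ?_ hM0
        exact mul_le_mul_of_nonneg_right hfin (by norm_num)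
    _ = _ := by rw [hM]; ring

end Q2.LV.Car
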