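import Pool.Agent.W418.LU2.Lo

/-!
Local uniformization of polynomial rings over a base.
-/

set_option autoImplicit false
set_option linter.unusedSectionVars false

universe u

namespace Pool.Agent.Q2.LV

open IsLocalRing Polynomial Pool.Agent.W418.LU2

section lo

variable {K : Type u} [Field K] (V : ValuationSubring K)

lemma loc_val : Loc V.toSubring := by
  intro a ha
  by_cases h0 : a = 0
  · right
    rw [h0, sub_zero]
    exact ⟨one_ne_zero, by rw [inv_one]; exact V.one_mem⟩
  rcases eq_or_ne (V.valuation a) 1 with h1 | h1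
  · left
    refine ⟨h0, ?_⟩
    change a⁻¹ ∈ V
    rw [← V.valuation_le_one_iff, map_inv₀, h1, inv_one]
  · right
    have h2 : V.valuation a < 1 := lt_of_le_of_ne ((V.valuation_le_one_iff _).2 ha) h1
    have h3 : V.valuation (1 - a) = 1 := V.valuation.map_one_sub_of_lt h2
    have h4 : 1 - a ≠ 0 := by
      intro h
      rw [h, map_zero] at h3
      exact zero_ne_one h3
    refine ⟨h4, ?_⟩
    change (1 - a)⁻¹ ∈ V
    rw [← V.valuation_le_one_iff, map_inv₀, h3, inv_one]

/-- The localization at the centre. -/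
theorem isLocalization_lo {B : Type u} [CommRing B] (φ : B →+* K)
    (hφ : Function.Injective φ) (P' : Ideal B) [P'.IsPrime]
    (hP' : ∀ b, b ∈ P' ↔ V.valuation (φ b) < 1) (hBV : ∀ b, φ b ∈ V) :
    Nonempty (lo V.toSubring φ.range ≃+* Localization.AtPrime P') := by
  have hBP : ∀ b, φ b ∈ lo V.toSubring φ.range := fun b => le_lo _ _ ⟨b, rfl⟩
  have hrV : φ.range ≤ V.toSubring := by
    rintro _ ⟨b, rfl⟩
    exact hBV b
  let ψ : B →+* lo V.toSubring φ.range := φ.codRestrict _ hBP
  let _ : Algebra B (lo V.toSubring φ.range) := ψ.toAlgebra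
  have halg : ∀ b, ((algebraMap B (lo V.toSubring φ.range) b : lo V.toSubring φ.range) : K) =
      φ b := fun b => rfl
  have hunit : ∀ b, b ∉ P' ↔ IsUnit (algebraMap B (lo V.toSubring φ.range) b) := by
    intro b
    rw [hP', isUnit_lo_iff hrV, halg, not_lt]
    constructor
    · intro h1
      have h2 : V.valuation (φ b) = 1 := le_antisymm ((V.valuation_le_one_iff _).2 (hBV b)) h1
      have h3 : φ b ≠ 0 := by
        intro h
        rw [h, map_zero] at h2
        exact zero_ne_one h2
      refine ⟨h3, ?_⟩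
      change (φ b)⁻¹ ∈ V
      rw [← V.valuation_le_one_iff, map_inv₀, h2, inv_one]
    · rintro ⟨h1, h2⟩
      have h3 : (φ b)⁻¹ ∈ V := h2
      rw [← V.valuation_le_one_iff, map_inv₀] at h3
      exact (inv_le_one₀ (zero_lt_iff.2 ((_root_.map_ne_zero _).2 h1))).1 h3
  have hL : IsLocalization.AtPrime (lo V.toSubring φ.range) P' :=
    { map_units := fun y => (hunit y.1).1 y.2
      surj := by
        rintro ⟨z, a, ha, b, hb, hb0, hbW, rfl⟩
        obtain ⟨a', rfl⟩ := ha
        obtain ⟨b', rfl⟩ := hb
        refine ⟨(a', ⟨b', ?_⟩), ?_⟩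
        · change b' ∉ P'
          rw [hunit, isUnit_lo_iff hrV]
          exact ⟨hb0, hbW⟩
        · apply Subtype.ext
          change φ a' * (φ b')⁻¹ * φ b' = φ a'
          rw [mul_assoc, inv_mul_cancel₀ hb0, mul_one]
      exists_of_eq := by
        intro a b h
        refine ⟨1, ?_⟩
        have h1 : a = b := hφ (congrArg (Subtype.val : lo V.toSubring φ.range → K) h)
        rw [h1] }
  exact ⟨(IsLocalization.algEquiv P'.primeCompl (lo V.toSubring φ.range)
      (Localization.AtPrime P')).toRingEquiv⟩

/-- The local ring at the centre depends only on the local ring. -/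
lemma lo_idem {S S' : Subring K} (h1 : S ≤ S') (h2 : S' ≤ lo V.toSubring S)
    (hS : S ≤ V.toSubring) : lo V.toSubring S' = lo V.toSubring S := by
  apply le_antisymm
  · rintro _ ⟨a, ha, b, hb, hb0, hbV, rfl⟩
    exact (lo V.toSubring S).mul_mem (h2 ha) (inv_mem_lo hS (h2 hb) hb0 hbV)
  · exact lo_mono h1

lemma th_inj {A S S' : Subring K} {t : K} (h : Adj A S S' t) [h.P.IsPrime]
    (htr : ∀ g : (lo A S)[X], eval₂ (lo A S).subtype t g = 0 → g = 0) :
    Function.Injective h.th := by
  rw [injective_iff_map_eq_zero]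
  intro z hz
  obtain ⟨g, s, rfl⟩ := IsLocalization.exists_mk'_eq h.P.primeCompl z
  have h2 : h.th (algebraMap _ _ s.1) * h.th (IsLocalization.mk' _ g s) =
      h.th (algebraMap _ _ g) := by
    rw [← map_mul]
    congr 1
    exact IsLocalization.mk'_spec' _ g s
  rw [hz, mul_zero, h.th_alg] at h2
  have h3 : eval₂ (lo A S).subtype t g = 0 := by
    rw [← h.ev_coe, ← h2]
    rfl
  rw [htr g h3, IsLocalization.mk'_zero]

/-- Adjunction of a transcendental element. -/
theorem reg_adj (A S : Subring K) (hA : Loc A) (t : K) (ht : t ∈ A) (hS : S ≤ A)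
    (htr : ∀ g : (lo A S)[X], eval₂ (lo A S).subtype t g = 0 → g = 0)
    (hreg : IsRegularLocalRing (lo A S)) :
    IsRegularLocalRing (lo A (Subring.closure (insert t (S : Set K)))) := by
  have h := adj_closure hA hS ht
  have hp := h.P_prime
  have hc : h.P.comap C = maximalIdeal (lo A S) := h.comap_P
  have h1 := Polynomial.isRegularLocalRing_localization_atPrime_of_comap_eq_maximalIdeal
    (lo A S) h.P hc
  let e : Localization.AtPrime h.P ≃+* lo A (Subring.closure (insert t (S : Set K))) :=
    RingEquiv.ofBijective h.th ⟨th_inj h htr, h.th_surj⟩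
  exact IsRegularLocalRing.of_ringEquiv (R := Localization.AtPrime h.P) e

end lo

section tr

variable {K : Type u} [Field K]

/-- Polynomials with coefficients which are fractions. -/
lemma eval_ne {A S : Subring K} {E : Type u} [Field E] [Algebra E K] (L : Subalgebra E K)
    (hSL : ∀ y ∈ S, y ∈ L) {t : K} (htr : Transcendental L t) (g : (lo A S)[X])
    (hg : eval₂ (lo A S).subtype t g = 0) : g = 0 := by
  classical
  by_contra hg0
  apply htr
  have h1 : ∀ y : lo A S, ∃ b ∈ S, b ≠ 0 ∧ b * (y : K) ∈ S := by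
    rintro ⟨y, a, ha, b, hb, hb0, hbA, rfl⟩
    refine ⟨b, hb, hb0, ?_⟩
    change b * (a * b⁻¹) ∈ S
    have h2 : b * (a * b⁻¹) = a := by field_simp
    rw [h2]
    exact ha
  choose b hb hb0 hby using h1
  let B : K := ∏ n ∈ g.support, b (g.coeff n)
  have hBS : B ∈ S := Subring.prod_mem _ fun n _ => hb _
  have hB0 : B ≠ 0 := Finset.prod_ne_zero_iff.2 fun n _ => hb0 _
  have hBg : ∀ n, B * (g.coeff n : K) ∈ S := by
    intro n
    by_cases hn : n ∈ g.support
    · have h2 : B = b (g.coeff n) * ∏ i ∈ g.support.erase n, b (g.coeff i) :=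
        (Finset.mul_prod_erase _ _ hn).symm
      rw [h2, mul_right_comm]
      exact S.mul_mem (hby _) (Subring.prod_mem _ fun i _ => hb _)
    · rw [Polynomial.notMem_support_iff.1 hn]
      change B * 0 ∈ S
      rw [mul_zero]
      exact S.zero_mem
  let P : L[X] := ∑ n ∈ g.support, Polynomial.monomial n (⟨B * (g.coeff n : K), hSL _ (hBg n)⟩ : L)
  have hPc : ∀ n, ((P.coeff n : L) : K) = B * (g.coeff n : K) := by
    intro n
    simp only [P, Polynomial.finsetSum_coeff, Polynomial.coeff_monomial]
    rw [Finset.sum_ite_eq' g.support n]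
    split_ifs with hn
    · rfl
    · rw [Polynomial.notMem_support_iff.1 hn]
      change (0 : K) = B * 0
      rw [mul_zero]
  refine ⟨P, ?_, ?_⟩
  · intro h0
    apply hg0
    ext n
    have h2 := hPc n
    rw [h0, Polynomial.coeff_zero] at h2
    change (0 : K) = _ at h2
    rcases mul_eq_zero.1 h2.symm with h3 | h3
    · exact absurd h3 hB0
    · exact h3
  · simp only [P, map_sum, Polynomial.aeval_monomial]
    have h2 : ∀ n ∈ g.support, algebraMap L K (⟨B * (g.coeff n : K), hSL _ (hBg n)⟩ : L) * t ^ n =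
        B * ((g.coeff n : K) * t ^ n) := fun n _ => mul_assoc _ _ _
    rw [Finset.sum_congr rfl h2, ← Finset.mul_sum]
    have h3 : ∑ n ∈ g.support, (g.coeff n : K) * t ^ n = eval₂ (lo A S).subtype t g := by
      rw [Polynomial.eval₂_eq_sum, Polynomial.sum_def]
      rfl
    rw [h3, hg, mul_zero]

/-- Adjunction of algebraically independent elements. -/
theorem reg_mv (A S : Subring K) (hA : Loc A) (hS : S ≤ A) {E : Type u} [Field E] [Algebra E K]
    (hSE : ∀ y ∈ S, y ∈ (⊥ : Subalgebra E K)) (hreg : IsRegularLocalRing (lo A S)) (n : ℕ)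
    (c : Fin n → K) (hc : AlgebraicIndependent E c) (hcA : ∀ i, c i ∈ A) (i : ℕ) (hi : i ≤ n) :
    IsRegularLocalRing (lo A (Subring.closure ((S : Set K) ∪
      c '' {j | (j : ℕ) < i}))) := by
  induction i with
  | zero =>
    have h1 : (S : Set K) ∪ c '' {j | (j : ℕ) < 0} = S := by
      have h2 : {j : Fin n | (j : ℕ) < 0} = ∅ := by
        ext j
        simp
      rw [h2, Set.image_empty, Set.union_empty]
    rw [h1, Subring.closure_eq]
    exact hreg
  | succ i ih =>
    let j₀ : Fin n := ⟨i, hi⟩
    let S' : Subring K := Subring.closure ((S : Set K) ∪ c '' {j | (j : ℕ) < i})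
    have h1 : Subring.closure ((S : Set K) ∪ c '' {j | (j : ℕ) < i + 1}) =
        Subring.closure (insert (c j₀) (S' : Set K)) := by
      apply le_antisymm
      · rw [Subring.closure_le]
        rintro y (hy | ⟨j, hj, rfl⟩)
        · exact Subring.subset_closure (Set.mem_insert_of_mem _
            (Subring.subset_closure (Or.inl hy)))
        · rcases (Nat.lt_succ_iff_lt_or_eq.1 hj) with h | h
          · exact Subring.subset_closure (Set.mem_insert_of_mem _
              (Subring.subset_closure (Or.inr ⟨j, h, rfl⟩)))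
          · have h2 : j = j₀ := Fin.ext h
            rw [h2]
            exact Subring.subset_closure (Set.mem_insert _ _)
      · rw [Subring.closure_le]
        rintro y (rfl | hy)
        · exact Subring.subset_closure (Or.inr ⟨j₀, Nat.lt_succ_self i, rfl⟩)
        · refine Subring.closure_mono ?_ hy
          rintro z (hz | ⟨j, hj, rfl⟩)
          · exact Or.inl hz
          · exact Or.inr ⟨j, Nat.lt_succ_of_lt hj, rfl⟩
    rw [h1]
    have hS'A : S' ≤ A := by
      rw [Subring.closure_le]
      rintro y (hy | ⟨j, hj, rfl⟩)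
      · exact hS hy
      · exact hcA j
    let L : Subalgebra E K := Algebra.adjoin E (c '' {j | (j : ℕ) < i})
    have hSL : ∀ y ∈ S', y ∈ L := by
      intro y hy
      have h2 : S' ≤ L.toSubring := by
        rw [Subring.closure_le]
        rintro y (hy | hy)
        · obtain ⟨e, rfl⟩ := hSE y hy
          exact L.algebraMap_mem e
        · exact Algebra.subset_adjoin hy
      exact h2 hy
    refine reg_adj A S' hA (c j₀) (hcA _) hS'A (fun g hg => eval_ne L hSL ?_ g hg)
      (ih (by omega))
    exact hc.transcendental_adjoin (s := {j | (j : ℕ) < i}) (i := j₀)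
      (by intro h; exact lt_irrefl i h)

theorem reg_mv' (A S : Subring K) (hA : Loc A) (hS : S ≤ A) {E : Type u} [Field E] [Algebra E K]
    (hSE : ∀ y ∈ S, y ∈ (⊥ : Subalgebra E K)) (hreg : IsRegularLocalRing (lo A S)) {σ : Type}
    [Finite σ] (c : σ → K) (hc : AlgebraicIndependent E c) (hcA : ∀ i, c i ∈ A) :
    IsRegularLocalRing (lo A (Subring.closure ((S : Set K) ∪ Set.range c))) := by
  have : Fintype σ := Fintype.ofFinite σ
  let e := (Fintype.equivFin σ).symm
  have h1 := reg_mv A S hA hS hSE hreg _ (c ∘ e) (hc.comp e e.injective) (fun i => hcA _) _ le_rfl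
  have h2 : (c ∘ e) '' {j | (j : ℕ) < Fintype.card σ} = Set.range c := by
    have h3 : {j : Fin (Fintype.card σ) | (j : ℕ) < Fintype.card σ} = Set.univ := by
      ext j
      simp
    rw [h3, Set.image_univ, e.surjective.range_comp]
  rwa [h2] at h1

end tr

section uni

/-- The valuation ring `V` is uniformized over `R`. -/
def Uni (R : Type u) {K : Type u} [CommRing R] [Field K] [Algebra R K]
    (V : ValuationSubring K) : Prop :=
  ∃ A : Subalgebra R K, A.FG ∧ (∀ a : A, (a : K) ∈ V) ∧
    ∃ P : Ideal A, ∃ (_ : P.IsPrime), (∀ a : A, a ∈ P ↔ V.valuation (a : K) < 1) ∧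
      IsRegularLocalRing (Localization.AtPrime P)

/-- Local uniformization of algebras which are contained in the local ring of a polynomial ring. -/
theorem uni_prod {O E T K : Type u} [CommRing O] [Field E] [Algebra O E] [CommRing T] [Field K]
    [Algebra T K] [Algebra E K] (V : ValuationSubring K)
    (hOT : ∀ a : O, ∃ b : T, algebraMap T K b = algebraMap E K (algebraMap O E a))
    (hE : Uni O (V.comap (algebraMap E K))) {σ : Type} [Finite σ] (c : σ → K)
    (hc : AlgebraicIndependent E c) (hcV : ∀ w, c w ∈ V)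
    (hT : ∀ a : T, algebraMap T K a ∈ lo V.toSubring (Subring.closure
      (Set.range (fun a : O => algebraMap E K (algebraMap O E a)) ∪ Set.range c))) :
    Uni T V := by
  classical
  have : Fintype σ := Fintype.ofFinite σ
  obtain ⟨A₁, ⟨G, hG⟩, hA₁V, P₁, hP₁, hP₁V, hreg⟩ := hE
  let φ : A₁ →+* K := (algebraMap E K).comp A₁.val.toRingHom
  have hφ : Function.Injective φ := (algebraMap E K).injective.comp Subtype.val_injective
  have hA₁V' : ∀ a, φ a ∈ V := fun a => hA₁V a
  have hcent : ∀ a, a ∈ P₁ ↔ V.valuation (φ a) < 1 := by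
    intro a
    rw [hP₁V]
    have h1 : ∀ (e : E) (U : ValuationSubring E) (_ : U = V.comap (algebraMap E K)),
        e ∈ V.comap (algebraMap E K) → (U.valuation e < 1 ↔ V.valuation (algebraMap E K e) < 1) := by
      rintro e _ rfl he
      have he' : algebraMap E K e ∈ V := he
      by_cases h0 : e = 0
      · rw [h0, map_zero, map_zero, map_zero]
        exact ⟨fun _ => zero_lt_one, fun _ => zero_lt_one⟩
      have h2 : ¬ ((V.comap (algebraMap E K)).valuation e < 1) ↔
          ¬ (V.valuation (algebraMap E K e) < 1) := by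
        have h3 : (V.comap (algebraMap E K)).valuation e ≤ 1 :=
          ((V.comap (algebraMap E K)).valuation_le_one_iff _).2 he
        have h4 : V.valuation (algebraMap E K e) ≤ 1 := (V.valuation_le_one_iff _).2 he'
        have h5 : e⁻¹ ∈ V.comap (algebraMap E K) ↔ (algebraMap E K e)⁻¹ ∈ V := by
          rw [ValuationSubring.mem_comap, map_inv₀]
        rw [← (V.comap (algebraMap E K)).valuation_le_one_iff, ← V.valuation_le_one_iff,
          map_inv₀, map_inv₀, inv_le_one₀ (zero_lt_iff.2 ((_root_.map_ne_zero _).2 h0)),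
          inv_le_one₀ (zero_lt_iff.2 ((_root_.map_ne_zero _).2 ((_root_.map_ne_zero _).2 h0)))] at h5
        rw [not_lt, not_lt]
        exact h5
      exact not_iff_not.1 h2
    exact h1 _ _ rfl (hA₁V a)
  obtain ⟨e₁⟩ := isLocalization_lo V φ hφ P₁ hcent hA₁V'
  have hreg₁ : IsRegularLocalRing (lo V.toSubring φ.range) :=
    IsRegularLocalRing.of_ringEquiv e₁.symm
  have hφV : φ.range ≤ V.toSubring := by
    rintro _ ⟨a, rfl⟩
    exact hA₁V' a
  have hreg₂ := reg_mv' V.toSubring φ.range (loc_val V) hφV (E := E) (by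
    rintro _ ⟨a, rfl⟩
    exact ⟨(a : E), rfl⟩) hreg₁ c hc hcV
  let S := Subring.closure ((φ.range : Set K) ∪ Set.range c)
  have hSV : S ≤ V.toSubring := by
    rw [Subring.closure_le]
    rintro y (hy | ⟨w, rfl⟩)
    · exact hφV hy
    · exact hcV w
  let A : Subalgebra T K := Algebra.adjoin T (((G.image (algebraMap E K)) ∪
    (Finset.univ.image c) : Finset K) : Set K)
  have hOS : Subring.closure (Set.range (fun a : O => algebraMap E K (algebraMap O E a)) ∪
      Set.range c) ≤ S := by
    apply Subring.closure_mono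
    rintro y (⟨a, rfl⟩ | hy)
    · exact Or.inl ⟨algebraMap O A₁ a, rfl⟩
    · exact Or.inr hy
  have hAS' : ∀ y ∈ A, y ∈ lo V.toSubring S := by
    intro y hy
    induction hy using Algebra.adjoin_induction with
    | mem y hy =>
      apply le_lo
      rw [Finset.coe_union, Finset.coe_image, Finset.coe_image] at hy
      rcases hy with ⟨z, hz, rfl⟩ | ⟨w, -, rfl⟩
      · have h1 : z ∈ A₁ := by
          rw [← hG]
          exact Algebra.subset_adjoin hz
        exact Subring.subset_closure (Or.inl ⟨⟨z, h1⟩, rfl⟩)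
      · exact Subring.subset_closure (Or.inr ⟨w, rfl⟩)
    | algebraMap r => exact lo_mono hOS (hT r)
    | add y z _ _ hy hz => exact Subring.add_mem _ hy hz
    | mul y z _ _ hy hz => exact Subring.mul_mem _ hy hz
  have hAS : A.toSubring ≤ lo V.toSubring S := fun y hy => hAS' y hy
  have hSA : S ≤ A.toSubring := by
    rw [Subring.closure_le]
    rintro y (⟨⟨z, hz⟩, rfl⟩ | ⟨w, rfl⟩)
    · change algebraMap E K z ∈ A
      rw [← hG] at hz
      induction hz using Algebra.adjoin_induction with
      | mem z hz =>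
        apply Algebra.subset_adjoin
        rw [Finset.coe_union, Finset.coe_image]
        exact Or.inl ⟨z, hz, rfl⟩
      | algebraMap r =>
        obtain ⟨b, hb⟩ := hOT r
        rw [← hb]
        exact A.algebraMap_mem b
      | add z z' _ _ hz hz' => rw [map_add]; exact A.add_mem hz hz'
      | mul z z' _ _ hz hz' => rw [map_mul]; exact A.mul_mem hz hz'
    · apply Algebra.subset_adjoin
      rw [Finset.coe_union]
      exact Or.inr (Finset.mem_coe.2 (Finset.mem_image.2 ⟨w, Finset.mem_univ _, rfl⟩))
  have hAV : ∀ a : A, (a : K) ∈ V := fun a => lo_le hSV (hAS a.2)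
  let ι : A →+* V := A.val.toRingHom.codRestrict V.toSubring fun a => hAV a
  let P : Ideal A := (IsLocalRing.maximalIdeal V).comap ι
  have hP : P.IsPrime := Ideal.IsPrime.comap ι
  have hPm : ∀ a : A, a ∈ P ↔ V.valuation (a : K) < 1 := by
    intro a
    change ι a ∈ IsLocalRing.maximalIdeal V ↔ _
    exact V.valuation_lt_one_iff (ι a)
  refine ⟨A, ⟨_, rfl⟩, hAV, P, hP, hPm, ?_⟩
  obtain ⟨e₂⟩ := isLocalization_lo V (A.val.toRingHom : A →+* K) Subtype.val_injective P
    (fun a => hPm a) hAV
  have h1 : (A.val.toRingHom : A →+* K).range = A.toSubring := by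
    ext y
    constructor
    · rintro ⟨a, rfl⟩
      exact a.2
    · intro hy
      exact ⟨⟨y, hy⟩, rfl⟩
  rw [h1, lo_idem V hSA hAS hSV] at e₂
  exact IsRegularLocalRing.of_ringEquiv e₂

end uni

end Pool.Agent.Q2.LV
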