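import Pool.Agent.Q2.LV.Base
import Pool.Agent.Q2.LV.Lo
import Pool.Agent.Q2.VI.Tlv

/-!
Local uniformization of vector invariants over a base: the charts.
-/

set_option autoImplicit false
set_option linter.unusedSectionVars false

open Matrix MvPolynomial

namespace Pool.Agent.Q2.LV

open Pool.Agent.Q2.VI

section fin

variable {F : Type} [Field F] [Fintype F] {m t : ℕ} (a d : Fin t → ℕ)

/-- The invariants of the fraction field are the fractions of the invariants. -/
lemma frac_inv {ι : Type} [Fintype ι] [DecidableEq ι] (H : Matrix ι ι F → Prop)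
    (hH : ∀ g, H g → g.det ≠ 0) (y : FractionRing (MvPolynomial (ι × Fin m) F))
    (hy : ∀ σ : FractionRing (MvPolynomial (ι × Fin m) F) →ₐ[F]
        FractionRing (MvPolynomial (ι × Fin m) F),
      (∃ B : Matrix ι ι F, H B ∧ ∀ w j, σ (xg F _ ι m w j) = bx B (xg F _ ι m) w j) → σ y = y) :
    ∃ u ∈ inv F m H, ∃ v ∈ inv F m H, v ≠ 0 ∧
      y = algebraMap _ (FractionRing (MvPolynomial (ι × Fin m) F)) u / algebraMap _ _ v := by
  classical
  obtain ⟨f, h, hh0, rfl⟩ := IsFractionRing.div_surjective (A := MvPolynomial (ι × Fin m) F) y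
  have h0 : h ≠ 0 := nonZeroDivisors.ne_zero hh0
  have hint := isIntegral_invg (inv F m H) fun f hf g hg => hf g (hH g hg)
  obtain ⟨r, hr0, h', hr⟩ := (hint.isIntegral h).isAlgebraic.exists_nonzero_dvd
    (mem_nonZeroDivisors_of_ne_zero h0)
  have hr' : (r : MvPolynomial (ι × Fin m) F) = h * h' := hr
  have hr1 : (r : MvPolynomial (ι × Fin m) F) ≠ 0 := fun h1 => hr0 (Subtype.ext h1)
  have hh' : h' ≠ 0 := by
    rintro rfl
    rw [mul_zero] at hr'
    exact hr1 hr'
  have hinj : Function.Injective (algebraMap (MvPolynomial (ι × Fin m) F)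
      (FractionRing (MvPolynomial (ι × Fin m) F))) := IsFractionRing.injective _ _
  have e1 : algebraMap _ (FractionRing (MvPolynomial (ι × Fin m) F)) f / algebraMap _ _ h =
      algebraMap _ _ (f * h') / algebraMap _ _ (r : MvPolynomial (ι × Fin m) F) := by
    have e2 : algebraMap _ (FractionRing (MvPolynomial (ι × Fin m) F)) h ≠ 0 :=
      fun h1 => h0 (hinj (by rw [h1, map_zero]))
    have e3 : algebraMap _ (FractionRing (MvPolynomial (ι × Fin m) F)) h' ≠ 0 :=
      fun h1 => hh' (hinj (by rw [h1, map_zero]))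
    rw [hr', map_mul, map_mul]
    field_simp
  refine ⟨f * h', ?_, r, r.2, hr1, e1⟩
  intro B hB
  obtain ⟨σ, hσ⟩ := exists_sigma (k := F) (K := FractionRing (MvPolynomial (ι × Fin m) F)) (m := m)
    (isUnit_iff_ne_zero.2 (hH B hB))
  have h1 := hy σ ⟨B, hB, hσ⟩
  rw [e1, map_div₀] at h1
  have h2 : σ (algebraMap _ _ (r : MvPolynomial (ι × Fin m) F)) = algebraMap _ _ r.1 := by
    rw [sigma_eqg σ hσ]
    congr 1
    exact r.2 B hB
  rw [h2] at h1
  have e4 : algebraMap _ (FractionRing (MvPolynomial (ι × Fin m) F)) r.1 ≠ 0 :=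
    fun h1 => hr1 (hinj (by rw [h1, map_zero]))
  have h3 : σ (algebraMap _ _ (f * h')) = algebraMap _ _ (f * h') := by
    rw [div_left_inj' e4] at h1
    exact h1
  rw [sigma_eqg σ hσ] at h3
  exact hinj h3

variable {a d} {S : ∀ i, Fin (a i) → Fin m × ℕ}

lemma chart_inv (hS : Vd (Fintype.card F) a
    (xg F (FractionRing (MvPolynomial (Rw a × Fin m) F)) (Rw a) m) S) (w : Fin m × Rw a) :
    ∃ u ∈ inv F m (Gm (F := F) a d), ∃ v ∈ inv F m (Gm (F := F) a d), v ≠ 0 ∧
      cT F a d (xg F (FractionRing (MvPolynomial (Rw a × Fin m) F)) (Rw a) m) S w =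
      algebraMap _ (FractionRing (MvPolynomial (Rw a × Fin m) F)) u / algebraMap _ _ v := by
  refine frac_inv _ (fun g hg => hg.det_ne) _ ?_
  rintro σ ⟨B, hB, hσ⟩
  exact inv_cS (σ : FractionRing (MvPolynomial (Rw a × Fin m) F) →+* _) a d _ S hS B hB hσ
    w.1 w.2.1 w.2.2

lemma inv_chart [NeZero m] (hdq : ∀ i, d i ∣ Fintype.card F - 1) (hS : Vd (Fintype.card F) a
    (xg F (FractionRing (MvPolynomial (Rw a × Fin m) F)) (Rw a) m) S)
    (z : MvPolynomial (Rw a × Fin m) F) (hz : z ∈ inv F m (Gm (F := F) a d)) :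
    algebraMap _ (FractionRing (MvPolynomial (Rw a × Fin m) F)) z ∈
      CT F F a d (xg F (FractionRing (MvPolynomial (Rw a × Fin m) F)) (Rw a) m) S := by
  let K := FractionRing (MvPolynomial (Rw a × Fin m) F)
  have hx : AlgebraicIndependent F fun w : Rw a × Fin m => xg F K (Rw a) m w.1 w.2 := xg_ind
  have hK : IntermediateField.adjoin F
    (Set.range fun w : Rw a × Fin m => xg F K (Rw a) m w.1 w.2) = ⊤ := xg_top
  refine mem_CT hx hK hdq hS _ ?_ (mem_ET hx hK hdq hS _ ?_)
  · have h1 : ∀ f : MvPolynomial (Rw a × Fin m) F,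
        IsIntegral (CT F F a d (xg F K (Rw a) m) S) (algebraMap _ K f) := by
      intro f
      induction f using MvPolynomial.induction_on with
      | C c =>
        have h2 : algebraMap (MvPolynomial (Rw a × Fin m) F) K (MvPolynomial.C c) =
            algebraMap (CT F F a d (xg F K (Rw a) m) S) K (algebraMap F _ c) := by
          change _ = algebraMap F K c
          rw [IsScalarTower.algebraMap_apply F (MvPolynomial (Rw a × Fin m) F) K]
          rfl
        rw [h2]
        exact isIntegral_algebraMap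
      | add p q hp hq =>
        rw [map_add]
        exact hp.add hq
      | mul_X p w hp =>
        rw [map_mul]
        exact hp.mul (CT_int hdq hS w.1 w.2)
    exact h1 z
  · rintro σ ⟨B, hB, hσ⟩
    have h1 := sigma_eqg (σ : K →ₐ[F] K) hσ z
    rw [← so_eq_sg, hz B hB] at h1
    exact h1

end fin

section vd

variable {K L : Type} [Field K] [Field L] {m : ℕ} (φ : K →+* L) (q : ℕ)

theorem map_Vd : ∀ {t : ℕ} (a : Fin t → ℕ) (x : Rw a → Fin m → K)
    (S : ∀ i, Fin (a i) → Fin m × ℕ), Vd q a (fun w j => φ (x w j)) S → Vd q a x S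
  | 0, _, _, _, _ => trivial
  | t + 1, a, x, S, h => by
    obtain ⟨h1, h2, h3⟩ := Vd_succ.1 h
    refine Vd_succ.2 ⟨?_, h2, ?_⟩
    · intro h4
      apply h1
      have h5 := VI.map_dt φ q (hd x) (S 0)
      rw [h4, map_zero] at h5
      exact h5.symm
    · refine map_Vd (fun i : Fin t => a i.succ) _ _ ?_
      rw [map_nxt]
      exact h3

end vd

/-- Extension of valuations. -/
theorem exists_ext {K L : Type*} [Field K] [Field L] (φ : K →+* L)
    (V : ValuationSubring K) : ∃ W : ValuationSubring L, ∀ x : K, φ x ∈ W ↔ x ∈ V := by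
  obtain ⟨W, h, hW⟩ := IsLocalRing.exists_factor_valuationRing (φ.comp (algebraMap V K))
  refine ⟨W, fun x => ⟨fun hx => ?_, fun hx => h ⟨x, hx⟩⟩⟩
  by_contra hxV
  have hx0 : x ≠ 0 := fun h0 => hxV (h0 ▸ V.zero_mem)
  have h1 : x⁻¹ ∈ V := (V.mem_or_inv_mem x).resolve_left hxV
  let y : V := ⟨x⁻¹, h1⟩
  have h2 : IsUnit (((φ.comp (algebraMap V K)).codRestrict W.toSubring h) y) := by
    refine isUnit_iff_exists_inv.2 ⟨⟨φ x, hx⟩, ?_⟩
    apply Subtype.ext
    change φ x⁻¹ * φ x = 1
    rw [← map_mul, inv_mul_cancel₀ hx0, map_one]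
  have h3 : IsUnit y := hW.map_nonunit _ h2
  obtain ⟨z, hz⟩ := isUnit_iff_exists_inv.1 h3
  have h4 : x⁻¹ * (z : K) = 1 := congrArg Subtype.val hz
  have h5 : (z : K) = x := by
    have := congrArg (fun w => x * w) h4
    rw [← mul_assoc, mul_inv_cancel₀ hx0, one_mul, mul_one] at this
    exact this
  exact hxV (h5 ▸ z.2)

lemma mem_of_int {A B L : Type*} [CommRing A] [CommRing B] [Algebra A B] [Field L] (θ : B →+* L)
    (W : ValuationSubring L) (h : ∀ a : A, θ (algebraMap A B a) ∈ W) {b : B}
    (hb : IsIntegral A b) : θ b ∈ W := by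
  obtain ⟨P, hP, hP0⟩ := hb
  let φ : A →+* W := (θ.comp (algebraMap A B)).codRestrict W.toSubring h
  have h1 : IsIntegral W (θ b) := by
    refine ⟨P.map φ, hP.map φ, ?_⟩
    rw [Polynomial.eval₂_map]
    have h2 := congrArg θ hP0
    rw [map_zero, Polynomial.hom_eval₂] at h2
    exact h2
  obtain ⟨y, hy⟩ := IsIntegrallyClosed.isIntegral_iff.1 h1
  rw [← hy]
  exact y.2

section core

variable {F : Type} [Field F] [Fintype F] {m t : ℕ} {a d : Fin t → ℕ}
  {O E K : Type} [CommRing O] [IsDomain O] [Algebra F O] [Field E] [Algebra O E]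
  [IsFractionRing O E] [Field K] [Algebra E K]

/-- The charts at a valuation ring. -/
theorem core [NeZero m] (hdq : ∀ i, d i ∣ Fintype.card F - 1)
    [Algebra (inv O m (Gm (F := F) a d)) K] [IsFractionRing (inv O m (Gm (F := F) a d)) K]
    (hE : ∀ b : O, algebraMap (inv O m (Gm (F := F) a d)) K (algebraMap O _ b) =
      algebraMap E K (algebraMap O E b))
    (V : ValuationSubring K)
    (hV : ∀ f : inv O m (Gm (F := F) a d), algebraMap _ K f ∈ V) :
    ∃ α : Fin m × Rw a → K, AlgebraicIndependent E α ∧ (∀ w, α w ∈ V) ∧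
      ∀ f : inv O m (Gm (F := F) a d), algebraMap _ K f ∈ Subring.closure
        (Set.range (fun b : O => algebraMap E K (algebraMap O E b)) ∪ Set.range α) := by
  classical
  let T := inv O m (Gm (F := F) a d)
  let _ : Algebra F E := ((algebraMap O E).comp (algebraMap F O)).toAlgebra
  have tFOE : IsScalarTower F O E := IsScalarTower.of_algebraMap_eq fun _ => rfl
  let PF := MvPolynomial (Rw a × Fin m) F
  let PO := MvPolynomial (Rw a × Fin m) O
  let PE := MvPolynomial (Rw a × Fin m) E
  let KF := FractionRing PF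
  let L := FractionRing PE
  let xF : Rw a → Fin m → KF := xg F KF (Rw a) m
  let x : Rw a → Fin m → L := xg E L (Rw a) m
  have hOE : Function.Injective (algebraMap O E) := IsFractionRing.injective O E
  have hFE : Function.Injective (algebraMap F E) := (algebraMap F E).injective
  let gE : PE →+* L := algebraMap PE L
  have hgE : Function.Injective gE := IsFractionRing.injective PE L
  let gF : PF →+* KF := algebraMap PF KF
  have hgF : Function.Injective gF := IsFractionRing.injective PF KF
  -- from `F` to `E`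
  let ψ0 : PF →+* L := gE.comp (map (algebraMap F E))
  have hψ0 : Function.Injective ψ0 := hgE.comp (map_injective _ hFE)
  let ψ : KF →+* L := IsFractionRing.lift hψ0
  have hψ : ∀ f, ψ (gF f) = gE (map (algebraMap F E) f) := fun f =>
    IsFractionRing.lift_algebraMap hψ0 f
  have hψx : (fun w j => ψ (xF w j)) = x := by
    funext w j
    change ψ (gF (X (w, j))) = gE (X (w, j))
    rw [hψ, map_X]
  -- from `T` to `L`
  let φ0 : T →+* L := (gE.comp (map (algebraMap O E))).comp (algebraMap T PO)
  have hφ0 : Function.Injective φ0 :=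
    (hgE.comp (map_injective _ hOE)).comp Subtype.val_injective
  let φ : K →+* L := IsFractionRing.lift hφ0
  have hφ : ∀ f : T, φ (algebraMap T K f) = gE (map (algebraMap O E) f.1) := fun f =>
    IsFractionRing.lift_algebraMap hφ0 f
  have hφE : ∀ e : E, φ (algebraMap E K e) = algebraMap E L e := by
    intro e
    obtain ⟨b, c, hc, rfl⟩ := IsFractionRing.div_surjective (A := O) e
    have h1 : ∀ b : O, φ (algebraMap E K (algebraMap O E b)) =
        algebraMap E L (algebraMap O E b) := by
      intro b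
      rw [← hE, hφ]
      have h2 : ((algebraMap O T b : T) : PO) = C b := rfl
      rw [h2, map_C, IsScalarTower.algebraMap_apply E PE L]
      rfl
    rw [map_div₀, map_div₀, map_div₀, h1, h1]
  -- the elements over `F`
  let ι0 : ∀ z : PF, z ∈ inv F m (Gm (F := F) a d) → T := fun z hz =>
    ⟨map (algebraMap F O) z, fun g hg => by rw [so_map, hz g hg]⟩
  have hι : ∀ z hz, φ (algebraMap T K (ι0 z hz)) = ψ (gF z) := by
    intro z hz
    rw [hφ, hψ]
    change gE (map (algebraMap O E) (map (algebraMap F O) z)) = _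
    rw [MvPolynomial.map_map]
    rfl
  obtain ⟨W, hW⟩ := exists_ext φ V
  -- the variables belong to `W`
  have hxW : ∀ w j, x w j ∈ W := by
    intro w j
    have hint := isIntegral_invg (inv F m (Gm (F := F) a d)) fun f hf g hg => hf g hg.det_ne
    have h1 : (ψ.comp gF) (X (w, j)) ∈ W := by
      refine mem_of_int (ψ.comp gF) W (fun z => ?_) (hint.isIntegral (X (w, j)))
      change ψ (gF z.1) ∈ W
      rw [← hι z.1 z.2, hW]
      exact hV _
    have h3 : x w j = (ψ.comp gF) (X (w, j)) := by
      rw [← hψx]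
      rfl
    rw [h3]
    exact h1
  have hFW : ∀ u : F, algebraMap F L u ∈ W := by
    intro u
    have h1 : (C u : PF) ∈ inv F m (Gm (F := F) a d) := fun g _ => AlgHom.commutes _ u
    have h2 : algebraMap F L u = ψ (gF (C u)) := by
      rw [hψ, map_C, IsScalarTower.algebraMap_apply F E L, IsScalarTower.algebraMap_apply E PE L]
      rfl
    rw [h2, ← hι _ h1, hW]
    exact hV _
  have hxi : AlgebraicIndependent E fun w : Rw a × Fin m => x w.1 w.2 := xg_ind
  have hxK : IntermediateField.adjoin E (Set.range fun w : Rw a × Fin m => x w.1 w.2) = ⊤ :=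
    xg_top
  obtain ⟨S, -, hS, hSW⟩ := exists_cS (F := F) (k := E) W hFW a d x hxi hxW
  have hSF : Vd (Fintype.card F) a xF S := by
    refine map_Vd ψ (Fintype.card F) a xF S ?_
    rw [hψx]
    exact hS
  have hcψ : ∀ w, ψ (cT F a d xF S w) = cT F a d x S w := by
    intro w
    refine (map_cS ψ (Fintype.card F) a d xF S w.1 w.2.1 w.2.2).trans ?_
    rw [hψx]
    rfl
  choose u hu v hv hv0 huv using fun w => chart_inv (F := F) (m := m) (d := d) hSF w
  let α : Fin m × Rw a → K := fun w =>
    algebraMap T K (ι0 (u w) (hu w)) / algebraMap T K (ι0 (v w) (hv w))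
  have hα : ∀ w, φ (α w) = cT F a d x S w := by
    intro w
    rw [← hcψ]
    change φ (_ / _) = ψ _
    rw [map_div₀, hι _ (hu w), hι _ (hv w), ← map_div₀]
    exact congrArg ψ (huv w).symm
  let φE : K →ₐ[E] L := { φ with commutes' := hφE }
  refine ⟨α, ?_, ?_, ?_⟩
  · have h1 : AlgebraicIndependent E (cT F a d x S) := cT_ind hxi hxK hdq hS
    have h2 : φE ∘ α = cT F a d x S := funext hα
    rw [← h2] at h1
    exact (φE.algebraicIndependent_iff φ.injective).1 h1
  · intro w
    rw [← hW, hα]
    exact hSW w.1 w.2.1 w.2.2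
  · intro f
    let D : Subring K := Subring.closure
      (Set.range (fun b : O => algebraMap E K (algebraMap O E b)) ∪ Set.range α)
    have hOD : ∀ b : O, algebraMap T K (algebraMap O T b) ∈ D := fun b =>
      Subring.subset_closure (Or.inl ⟨b, (hE b).symm⟩)
    -- invariants over `F`
    have hFD : ∀ y ∈ CT F F a d xF S, ∃ z ∈ D, φ z = ψ y := by
      intro y hy
      induction hy using Algebra.adjoin_induction with
      | mem y hy =>
        obtain ⟨w, rfl⟩ := hy
        exact ⟨α w, Subring.subset_closure (Or.inr ⟨w, rfl⟩), by rw [hα, hcψ]⟩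
      | algebraMap c =>
        refine ⟨_, hOD (algebraMap F O c), ?_⟩
        have h1 : (C c : PF) ∈ inv F m (Gm (F := F) a d) := fun g _ => AlgHom.commutes _ c
        have h2 : (algebraMap O T (algebraMap F O c) : T) = ι0 (C c) h1 := by
          apply Subtype.ext
          change (C (algebraMap F O c) : PO) = map (algebraMap F O) (C c)
          rw [map_C]
        rw [h2, hι _ h1]
        congr 1
      | add y z _ _ hy hz =>
        obtain ⟨y', hy', hy⟩ := hy
        obtain ⟨z', hz', hz⟩ := hz
        exact ⟨_, D.add_mem hy' hz', by rw [map_add, map_add, hy, hz]⟩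
      | mul y z _ _ hy hz =>
        obtain ⟨y', hy', hy⟩ := hy
        obtain ⟨z', hz', hz⟩ := hz
        exact ⟨_, D.mul_mem hy' hz', by rw [map_mul, map_mul, hy, hz]⟩
    have hFD' : ∀ z hz, algebraMap T K (ι0 z hz) ∈ D := by
      intro z hz
      obtain ⟨y, hy, hyz⟩ := hFD _ (inv_chart hdq hSF z hz)
      have h1 : y = algebraMap T K (ι0 z hz) := φ.injective (hyz.trans (hι z hz).symm)
      rw [← h1]
      exact hy
    have key : ∀ p ∈ Submodule.span O (map (algebraMap F O) ''
        ((inv F m (Gm (F := F) a d) : Subalgebra F PF) : Set PF)),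
        ∃ y ∈ D, φ y = gE (map (algebraMap O E) p) := by
      intro p hp
      induction hp using Submodule.span_induction with
      | mem p hp =>
        obtain ⟨z, hz, rfl⟩ := hp
        exact ⟨_, hFD' z hz, hφ _⟩
      | zero => exact ⟨0, D.zero_mem, by rw [map_zero, map_zero, map_zero]⟩
      | add p q _ _ hp hq =>
        obtain ⟨y, hy, hyp⟩ := hp
        obtain ⟨z, hz, hzq⟩ := hq
        exact ⟨_, D.add_mem hy hz, by rw [map_add, map_add, map_add, hyp, hzq]⟩
      | smul b p _ hp =>
        obtain ⟨y, hy, hyp⟩ := hp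
        refine ⟨_, D.mul_mem (hOD b) hy, ?_⟩
        rw [map_mul, hφ, hyp, MvPolynomial.smul_eq_C_mul, map_mul, map_mul]
        rfl
    obtain ⟨y, hy, hyf⟩ := key f.1 (inv_span f.1 f.2)
    have h1 : y = algebraMap T K f := φ.injective (hyf.trans (hφ f).symm)
    rw [← h1]
    exact hy

end core

end Pool.Agent.Q2.LV
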