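import Pool.Agent.Q289.LV.Stm

/-! Project LV, job ENV: the quasi-periodic environment fits the two settings. -/

set_option autoImplicit false

open MeasureTheory

namespace Q2.LV.EnvOk

open Q289.LV

theorem per_bdd {h : ℝ → ℝ} (hc : Continuous h) (hp : Function.Periodic h 1) :
    ∃ C : ℝ, ∀ x, |h x| ≤ C := by
  obtain ⟨C, hC⟩ := isCompact_Icc.exists_bound_of_continuousOn
    (hc.continuousOn (s := Set.Icc (0 : ℝ) 1))
  refine ⟨C, fun x => ?_⟩
  obtain ⟨y, hy, hxy⟩ := hp.exists_mem_Ico₀ one_pos x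
  rw [hxy]
  exact hC y ⟨hy.1, hy.2.le⟩

theorem per_pos {h : ℝ → ℝ} (hc : Continuous h) (hp : Function.Periodic h 1) (h0 : ∀ x, 0 < h x) :
    ∃ κ : ℝ, 0 < κ ∧ ∀ x, κ ≤ h x := by
  obtain ⟨z, -, hz⟩ := isCompact_Icc.exists_isMinOn (Set.nonempty_Icc.2 (zero_le_one (α := ℝ)))
    (hc.continuousOn (s := Set.Icc (0 : ℝ) 1))
  refine ⟨h z, h0 z, fun x => ?_⟩
  obtain ⟨y, hy, hxy⟩ := hp.exists_mem_Ico₀ one_pos x
  rw [hxy]
  exact hz ⟨hy.1, hy.2.le⟩

/-- a discrete primitive -/
noncomputable def prim (G : ℤ → ℝ) : ℤ → ℝ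
  | Int.ofNat n => ∑ j ∈ Finset.range n, G j
  | Int.negSucc n => -∑ j ∈ Finset.range (n + 1), G (Int.negSucc j)

theorem prim_succ (G : ℤ → ℝ) (k : ℤ) : prim G (k + 1) - prim G k = G k := by
  cases k with
  | ofNat n =>
    show ∑ j ∈ Finset.range (n + 1), G j - ∑ j ∈ Finset.range n, G j = G n
    rw [Finset.sum_range_succ]; ring
  | negSucc n =>
    cases n with
    | zero =>
      show ∑ j ∈ Finset.range 0, G j - -∑ j ∈ Finset.range (0 + 1), G (Int.negSucc j) = _
      simp
    | succ n =>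
      show -∑ j ∈ Finset.range (n + 1), G (Int.negSucc j) -
        -∑ j ∈ Finset.range (n + 1 + 1), G (Int.negSucc j) = _
      rw [Finset.sum_range_succ _ (n + 1)]; ring

theorem prim_add (G : ℤ → ℝ) (k : ℤ) (r : ℕ) :
    prim G (k + r) - prim G k = ∑ j ∈ Finset.range r, G (k + j) := by
  induction r with
  | zero => simp
  | succ r ih =>
    rw [Finset.sum_range_succ, ← ih, ← prim_succ G (k + r)]
    push_cast
    rw [add_assoc]
    ring

/-- the logarithmic ratio -/
noncomputable def lf (p : ℝ → ℝ) (y : ℝ) : ℝ := Real.log ((1 - p y) / p y)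

theorem lf_smooth {p : ℝ → ℝ} (hp : IsP p) : ContDiff ℝ (⊤ : ℕ∞) (lf p) := by
  unfold lf
  refine ContDiff.log ?_ fun x => ?_
  · exact (contDiff_const.sub hp.smooth).div hp.smooth fun x => (hp.rng x).1.ne'
  · exact (div_pos (by linarith [(hp.rng x).2]) (hp.rng x).1).ne'

theorem lf_per {p : ℝ → ℝ} (hp : IsP p) (x : ℝ) : lf p (x + 1) = lf p x := by
  unfold lf; rw [hp.per]

theorem lf_int {p : ℝ → ℝ} (hp : IsP p) : ∫ x in (0 : ℝ)..1, lf p x = 0 := by
  have hc := hp.smooth.continuous
  have e : ∀ x, lf p x = Real.log (1 - p x) - Real.log (p x) := fun x => by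
    unfold lf
    rw [Real.log_div (by linarith [(hp.rng x).2]) (hp.rng x).1.ne']
  simp only [e]
  have i1 : IntervalIntegrable (fun x => Real.log (1 - p x)) volume 0 1 :=
    ((continuous_const.sub hc).log fun x => (sub_pos.2 (hp.rng x).2).ne').intervalIntegrable _ _
  have i2 : IntervalIntegrable (fun x => Real.log (p x)) volume 0 1 :=
    (hc.log fun x => (hp.rng x).1.ne').intervalIntegrable _ _
  rw [intervalIntegral.integral_sub i1 i2, hp.sym, sub_self]

theorem lf_perZ {p : ℝ → ℝ} (hp : IsP p) (x : ℝ) (k : ℤ) : lf p (x + k) = lf p x := by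
  have h : Function.Periodic (lf p) 1 := lf_per hp
  have := h.int_mul k x
  simpa using this

theorem qn_succ (n : ℕ) : qn (n + 1) = qn n ^ (n + 1) := by
  unfold qn
  rw [← pow_mul, Nat.factorial_succ, mul_comm]

theorem three_le_qn (n : ℕ) : 3 ≤ qn n := by
  unfold qn
  calc 3 = 3 ^ 1 := by norm_num
    _ ≤ 3 ^ n.factorial := Nat.pow_le_pow_right (by norm_num) n.factorial_pos

theorem le_qn (n : ℕ) : n ≤ qn n := by
  unfold qn
  calc n ≤ n.factorial := Nat.self_le_factorial n
    _ ≤ 3 ^ n.factorial := (Nat.lt_pow_self (by norm_num)).le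

theorem env_ok (he : S_Eq) (ha : S_Ar) : S_Env := by
  intro p hp
  have hpc := hp.smooth.continuous
  -- ellipticity
  obtain ⟨κ, hκ, hκp⟩ := per_pos (h := fun x => min (p x) (1 - p x))
    (hpc.min (continuous_const.sub hpc)) (fun x => by simp only [hp.per])
    (fun x => lt_min (hp.rng x).1 (by linarith [(hp.rng x).2]))
  -- derivatives
  have hf := lf_smooth hp
  set f := lf p with hfdef
  have hf1 : ContDiff ℝ (⊤ : ℕ∞) (deriv f) := by
    have := (contDiff_infty_iff_deriv (f := f)).1 hf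
    exact this.2
  have hf2 : ContDiff ℝ (⊤ : ℕ∞) (deriv (deriv f)) := by
    have := (contDiff_infty_iff_deriv (f := deriv f)).1 hf1
    exact this.2
  have hper : Function.Periodic f 1 := lf_per hp
  have hper1 : Function.Periodic (deriv f) 1 := by
    intro x
    have h1 : (fun y => f (y + 1)) = f := funext hper
    have h2 : deriv (fun y => f (y + 1)) x = deriv f (x + 1) := deriv_comp_add_const f 1 x
    rw [← h2, h1]
  have hper2 : Function.Periodic (deriv (deriv f)) 1 := by
    intro x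
    have h1 : (fun y => deriv f (y + 1)) = deriv f := funext hper1
    have h2 : deriv (fun y => deriv f (y + 1)) x = deriv (deriv f) (x + 1) :=
      deriv_comp_add_const (deriv f) 1 x
    rw [← h2, h1]
  obtain ⟨K1, hK1⟩ := per_bdd hf1.continuous hper1
  obtain ⟨K2, hK2⟩ := per_bdd hf2.continuous hper2
  set K := max 1 (max K1 K2) with hKdef
  have hK1' : ∀ x, |deriv f x| ≤ K := fun x =>
    (hK1 x).trans ((le_max_left _ _).trans (le_max_right _ _))
  have hK2' : ∀ x, |deriv (deriv f) x| ≤ K := fun x =>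
    (hK2 x).trans ((le_max_right _ _).trans (le_max_right _ _))
  have hK0 : 1 ≤ K := le_max_left _ _
  have hlip : ∀ x y, |f x - f y| ≤ K * |x - y| := by
    intro x y
    have := Convex.norm_image_sub_le_of_norm_deriv_le (f := f) (C := K) (s := Set.univ)
      (fun z _ => (hf.differentiable (by simp)).differentiableAt) (fun z _ => hK1' z)
      convex_univ (Set.mem_univ y) (Set.mem_univ x)
    simpa using this
  obtain ⟨C, hC⟩ := he f hf hper (lf_int hp) 31
  have hC0 : 0 ≤ C := by
    have := hC 1 1 le_rfl (Nat.coprime_one_right 1) 0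
    have h2 := (abs_nonneg _).trans this
    simpa using h2
  refine ⟨κ, K, hκ, hK0, max 200 (Nat.ceil (C + 2 * K)), ?_⟩
  intro n T hn hT1 hT2
  have hn200 : 200 ≤ n := (le_max_left _ _).trans hn
  have hnC : C + 2 * K ≤ n := (Nat.le_ceil _).trans (by exact_mod_cast (le_max_right _ _).trans hn)
  obtain ⟨P, hP, hb1, hb2⟩ := ha.app n (by omega)
  set q := qn n with hq
  have hq3 : (3 : ℝ) ≤ q := by exact_mod_cast three_le_qn n
  have hq0 : (0 : ℝ) < q := by linarith
  have hqn : (n : ℝ) ≤ q := by exact_mod_cast le_qn n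
  have hq'eq : (qn (n + 1) : ℝ) = (q : ℝ) ^ (n + 1) := by rw [qn_succ]; push_cast; rfl
  have hq'0 : (0 : ℝ) < qn (n + 1) := by rw [hq'eq]; positivity
  set β : ℝ := q * al - P with hβ
  have hβ0 : 0 < β := lt_of_lt_of_le (div_pos hq0 hq'0) hb1
  have hβ2 : β ≤ 2 * q / (qn (n + 1) : ℝ) := hb2
  have hT0 : (1 : ℝ) ≤ T := le_trans (Real.one_le_rpow (by linarith) (by norm_num)) hT1
  set φ : ℝ → ℝ := fun y => ∑ j ∈ Finset.range q, f (y + (j + 1) * al) with hφ
  set φ₁ : ℝ → ℝ := fun y => ∑ j ∈ Finset.range q, deriv f (y + (j + 1) * al) with hφ₁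
  set φ₂ : ℝ → ℝ := fun y => ∑ j ∈ Finset.range q, deriv (deriv f) (y + (j + 1) * al) with hφ₂
  -- the size of `φ`
  have hφb : ∀ y, |φ y| ≤ 1 / (q : ℝ) ^ 30 := by
    intro y
    have h1 := hC q P (by exact_mod_cast (by linarith : (1 : ℝ) ≤ q)) hP (y + al)
    have h2 : |φ y - ∑ j ∈ Finset.range q, f (y + al + j * (P / q))| ≤ q * (K * β) := by
      rw [hφ, ← Finset.sum_sub_distrib]
      refine (Finset.abs_sum_le_sum_abs _ _).trans ?_
      have h3 : ∀ j ∈ Finset.range q, |f (y + (j + 1) * al) - f (y + al + j * (P / q))| ≤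
          K * β := by
        intro j hj
        refine (hlip _ _).trans (mul_le_mul_of_nonneg_left ?_ (by linarith))
        have h4 : y + ((j : ℝ) + 1) * al - (y + al + j * (P / q)) = (j / q) * β := by
          rw [hβ]; field_simp; ring
        rw [h4, abs_of_nonneg (by positivity)]
        have h5 : (j : ℝ) / q ≤ 1 := by
          rw [div_le_one hq0]
          exact_mod_cast (Finset.mem_range.1 hj).le
        calc (j : ℝ) / q * β ≤ 1 * β := mul_le_mul_of_nonneg_right h5 hβ0.le
          _ = β := one_mul β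
      calc _ ≤ ∑ j ∈ Finset.range q, K * β := Finset.sum_le_sum h3
        _ = q * (K * β) := by rw [Finset.sum_const, Finset.card_range, nsmul_eq_mul]
    have h3 : |φ y| ≤ C / (q : ℝ) ^ 31 + q * (K * β) := by
      have h4 : |φ y| ≤ |φ y - ∑ j ∈ Finset.range q, f (y + al + j * (P / q))| +
          |∑ j ∈ Finset.range q, f (y + al + j * (P / q))| := by
        have := abs_add_le (φ y - ∑ j ∈ Finset.range q, f (y + al + j * (P / q)))
          (∑ j ∈ Finset.range q, f (y + al + j * (P / q)))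
        simpa using this
      linarith
    refine h3.trans ?_
    have h5 : q * (K * β) ≤ 2 * K / (q : ℝ) ^ 31 := by
      have h6 : q * (K * β) ≤ q * (K * (2 * q / (q : ℝ) ^ (n + 1))) := by
        rw [← hq'eq]
        refine mul_le_mul_of_nonneg_left (mul_le_mul_of_nonneg_left hβ2 (by linarith)) hq0.le
      refine h6.trans ?_
      have h7 : (q : ℝ) * (K * (2 * q / (q : ℝ) ^ (n + 1))) = 2 * K / (q : ℝ) ^ (n - 1) := by
        have h8 : (q : ℝ) ^ (n + 1) = (q : ℝ) ^ (n - 1) * q ^ 2 := by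
          rw [← pow_add]; congr 1; omega
        rw [h8]
        field_simp
      rw [h7]
      refine div_le_div_of_nonneg_left (by positivity) (by positivity) ?_
      exact pow_le_pow_right₀ (by linarith) (by omega)
    have h6 : C / (q : ℝ) ^ 31 + 2 * K / (q : ℝ) ^ 31 ≤ 1 / (q : ℝ) ^ 30 := by
      rw [← add_div, div_le_div_iff₀ (by positivity) (by positivity), one_mul]
      rw [pow_succ (q : ℝ) 30, mul_comm]
      exact mul_le_mul_of_nonneg_left (by linarith) (by positivity)
    linarith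
  refine ⟨β, φ, φ₁, φ₂, fun x => ?_⟩
  set V : ℤ → ℝ := prim (fun k => f (x + ((k : ℝ) + 1) * al)) with hV
  have hVadd : ∀ (k : ℤ) (r : ℕ), V (k + r) - V k =
      ∑ j ∈ Finset.range r, f (x + k * al + (j + 1) * al) := by
    intro k r
    rw [hV, prim_add]
    refine Finset.sum_congr rfl fun j _ => ?_
    push_cast
    congr 1; ring
  have hEnv : Env κ (env p x) V := by
    refine ⟨hκ, fun k => ?_, fun k => ?_, fun k => ?_⟩
    · exact (hκp _).trans (min_le_left _ _)
    · have := (hκp (x + k * al)).trans (min_le_right _ _)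
      unfold env
      linarith
    · rw [hV, prim_succ]
      simp only [hfdef, lf, env]
      push_cast
      rfl
  have hshift : ∀ (y : ℝ) (i : ℤ), f (y + (i : ℝ) * q * al) = f (y + i * β) := by
    intro y i
    have h1 := lf_perZ hp (y + i * β) (i * P)
    rw [← hfdef] at h1
    rw [← h1]
    congr 1
    rw [hβ]; push_cast; ring
  refine ⟨V, fun hT => ⟨hEnv, fun k => ?_⟩, fun hT => ?_⟩
  · rw [hVadd k q]
    have h1 := hφb (x + k * al)
    simp only [hφ] at h1
    refine h1.trans ?_
    exact div_le_div_of_nonneg_left zero_le_one (by linarith) hT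
  · refine ⟨hEnv, hK0, ?_, hT, hβ0, ?_, fun y => ?_, fun y => ?_, fun y => ?_, fun y => ?_,
      fun y => ?_, fun i => ?_, fun k i r => ?_⟩
    · exact_mod_cast (by linarith : (1 : ℝ) ≤ q)
    · -- size of β
      have h1 : (T : ℝ) ^ (0.98 : ℝ) ≤ (qn (n + 1) : ℝ) ^ (0.9898 : ℝ) := by
        calc (T : ℝ) ^ (0.98 : ℝ) ≤ ((qn (n + 1) : ℝ) ^ (1.01 : ℝ)) ^ (0.98 : ℝ) :=
              Real.rpow_le_rpow (by linarith) hT2 (by norm_num)
          _ = _ := by rw [← Real.rpow_mul hq'0.le]; norm_num
      have h2 : β * (T : ℝ) ^ (0.98 : ℝ) ≤ 2 * q / (qn (n + 1) : ℝ) *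
          (qn (n + 1) : ℝ) ^ (0.9898 : ℝ) :=
        mul_le_mul hβ2 h1 (Real.rpow_nonneg (by linarith) _) (by positivity)
      refine h2.trans ?_
      have h3 : (qn (n + 1) : ℝ) ^ (0.9898 : ℝ) =
          (qn (n + 1) : ℝ) / (qn (n + 1) : ℝ) ^ (0.0102 : ℝ) := by
        rw [eq_div_iff (Real.rpow_pos_of_pos hq'0 _).ne', ← Real.rpow_add hq'0]
        norm_num
      have h4 : (q : ℝ) ^ 2 ≤ (qn (n + 1) : ℝ) ^ (0.0102 : ℝ) := by
        rw [hq'eq, ← Real.rpow_natCast (q : ℝ) (n + 1), ← Real.rpow_mul hq0.le,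
          ← Real.rpow_natCast]
        refine Real.rpow_le_rpow_of_exponent_le (by linarith) ?_
        have : (200 : ℝ) ≤ n := by exact_mod_cast hn200
        push_cast
        nlinarith
      have h5 : 0 < (qn (n + 1) : ℝ) ^ (0.0102 : ℝ) := Real.rpow_pos_of_pos hq'0 _
      rw [h3, div_mul_div_comm, mul_comm (qn (n + 1) : ℝ) ((qn (n + 1) : ℝ) ^ (0.0102 : ℝ)),
        mul_div_mul_right _ _ hq'0.ne', div_le_one h5]
      nlinarith
    · rw [hφ, hφ₁]
      refine HasDerivAt.fun_sum fun j _ => ?_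
      have h1 : HasDerivAt f (deriv f (y + (j + 1) * al)) (y + (j + 1) * al) :=
        (hf.differentiable (by simp)).differentiableAt.hasDerivAt
      exact h1.comp_add_const y _
    · rw [hφ₁, hφ₂]
      refine HasDerivAt.fun_sum fun j _ => ?_
      have h1 : HasDerivAt (deriv f) (deriv (deriv f) (y + (j + 1) * al)) (y + (j + 1) * al) :=
        (hf1.differentiable (by simp)).differentiableAt.hasDerivAt
      exact h1.comp_add_const y _
    · refine (hφb y).trans ?_
      rw [div_le_one (by positivity)]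
      exact one_le_pow₀ (by linarith)
    · refine (Finset.abs_sum_le_sum_abs _ _).trans ?_
      calc _ ≤ ∑ j ∈ Finset.range q, K := Finset.sum_le_sum fun j _ => hK1' _
        _ = K * q := by rw [Finset.sum_const, Finset.card_range, nsmul_eq_mul, mul_comm]
    · refine (Finset.abs_sum_le_sum_abs _ _).trans ?_
      calc _ ≤ ∑ j ∈ Finset.range q, K := Finset.sum_le_sum fun j _ => hK2' _
        _ = K * q := by rw [Finset.sum_const, Finset.card_range, nsmul_eq_mul, mul_comm]
    · have h1 : (i + 1) * (q : ℤ) = i * q + (q : ℕ) := by ring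
      rw [h1, hVadd]
      refine Finset.sum_congr rfl fun j _ => ?_
      have h2 := hshift (x + (j + 1) * al) i
      push_cast
      calc f (x + (i : ℝ) * q * al + (j + 1) * al) = f (x + (j + 1) * al + (i : ℝ) * q * al) := by
            congr 1; ring
        _ = f (x + (j + 1) * al + i * β) := h2
        _ = _ := by congr 1; ring
    · rw [hVadd (k + i * q) r, hVadd k r, ← Finset.sum_sub_distrib]
      refine (Finset.abs_sum_le_sum_abs _ _).trans ?_
      have h3 : ∀ j ∈ Finset.range r, |f (x + ((k + i * q : ℤ) : ℝ) * al + (j + 1) * al) -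
          f (x + k * al + (j + 1) * al)| ≤ K * (|(i : ℝ)| * β) := by
        intro j _
        have h2 := hshift (x + k * al + (j + 1) * al) i
        have h4 : f (x + ((k + i * q : ℤ) : ℝ) * al + (j + 1) * al) =
            f (x + k * al + (j + 1) * al + i * β) := by
          rw [← h2]; congr 1; push_cast; ring
        rw [h4]
        refine (hlip _ _).trans ?_
        rw [show x + (k : ℝ) * al + (j + 1) * al + i * β - (x + k * al + (j + 1) * al) = i * β by
          ring, abs_mul, abs_of_pos hβ0]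
      calc _ ≤ ∑ j ∈ Finset.range r, K * (|(i : ℝ)| * β) := Finset.sum_le_sum h3
        _ = _ := by rw [Finset.sum_const, Finset.card_range, nsmul_eq_mul]; ring

end Q2.LV.EnvOk
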