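import Pool.Agent.Q2.LV.Lo

/-!
Local uniformization of algebras which have polynomial charts over a base at every valuation ring.
-/

set_option autoImplicit false
set_option linter.unusedSectionVars false

namespace Pool.Agent.Q2.LV

open Pool.Agent.W418.LU2

/-- Local uniformization of the local ring `R`. -/
def AdLU (R : Type) [CommRing R] [IsLocalRing R] : Prop :=
  ∀ (K : Type) [Field K] [Algebra R K] [IsFractionRing R K] (V : ValuationSubring K),
    (∀ r : R, algebraMap R K r ∈ V) →
    (∀ r : R, r ∈ IsLocalRing.maximalIdeal R ↔ V.valuation (algebraMap R K r) < 1) →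
    Uni R V

/-- The algebra `T` over `O` has a polynomial chart at every valuation ring. -/
def HasCharts (O T : Type) [CommRing O] [CommRing T] [Algebra O T] : Prop :=
  ∀ (E K : Type) [Field E] [Algebra O E] [IsFractionRing O E] [Field K] [Algebra E K]
    [Algebra T K] [IsFractionRing T K]
    (_ : ∀ b : O, algebraMap T K (algebraMap O T b) = algebraMap E K (algebraMap O E b))
    (V : ValuationSubring K) (_ : ∀ f : T, algebraMap T K f ∈ V),
    ∃ (σ : Type) (_ : Finite σ) (α : σ → K), AlgebraicIndependent E α ∧ (∀ w, α w ∈ V) ∧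
      ∀ f : T, algebraMap T K f ∈ Subring.closure
        (Set.range (fun b : O => algebraMap E K (algebraMap O E b)) ∪ Set.range α)

lemma comap_lt {E K : Type*} [Field E] [Field K] (φ : E →+* K) (V : ValuationSubring K) (e : E)
    (he : e ∈ V.comap φ) : (V.comap φ).valuation e < 1 ↔ V.valuation (φ e) < 1 := by
  have he' : φ e ∈ V := he
  by_cases h0 : e = 0
  · rw [h0, map_zero, map_zero, map_zero]
    exact ⟨fun _ => zero_lt_one, fun _ => zero_lt_one⟩
  rw [← not_iff_not]
  have h5 : e⁻¹ ∈ V.comap φ ↔ (φ e)⁻¹ ∈ V := by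
    rw [ValuationSubring.mem_comap, map_inv₀]
  rw [← (V.comap φ).valuation_le_one_iff, ← V.valuation_le_one_iff,
    map_inv₀, map_inv₀, inv_le_one₀ (zero_lt_iff.2 ((map_ne_zero _).2 h0)),
    inv_le_one₀ (zero_lt_iff.2 ((map_ne_zero _).2 ((map_ne_zero _).2 h0)))] at h5
  rw [not_lt, not_lt]
  exact h5

/-- Uniformization along one valuation. -/
theorem HasCharts.uni {O T : Type} [CommRing O] [CommRing T] [Algebra O T] (h : HasCharts O T)
    {E K : Type} [Field E] [Algebra O E] [IsFractionRing O E] [Field K] [Algebra E K]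
    [Algebra T K] [IsFractionRing T K]
    (hE : ∀ b : O, algebraMap T K (algebraMap O T b) = algebraMap E K (algebraMap O E b))
    (V : ValuationSubring K) (hV : ∀ f : T, algebraMap T K f ∈ V)
    (hu : Uni O (V.comap (algebraMap E K))) : Uni T V := by
  obtain ⟨σ, _, α, h1, h2, h3⟩ := h E K hE V hV
  exact uni_prod V (fun b => ⟨_, hE b⟩) hu α h1 h2 fun a => le_lo _ _ (h3 a)

/-- Uniformization of the local rings. -/
theorem HasCharts.adLU {O T : Type} [CommRing O] [IsDomain O] [CommRing T] [IsDomain T]
    [Algebra O T] (hinj : Function.Injective (algebraMap O T)) (h : HasCharts O T)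
    (P : Ideal T) [P.IsPrime] (R : Type) [CommRing R] [IsLocalRing R] [Algebra T R]
    [IsLocalization.AtPrime R P] (hO : AdLU (Localization.AtPrime (P.comap (algebraMap O T)))) :
    AdLU R := by
  intro K _ _ _ V hV hVm
  have e1 : Function.Injective (algebraMap T R) :=
    IsLocalization.injective R P.primeCompl_le_nonZeroDivisors
  have e2 : Function.Injective (algebraMap R K) := IsFractionRing.injective R K
  let _ : Algebra T K := ((algebraMap R K).comp (algebraMap T R)).toAlgebra
  have hTK : ∀ a : T, algebraMap T K a = algebraMap R K (algebraMap T R a) := fun a => rfl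
  have t1 : IsScalarTower T R K := IsScalarTower.of_algebraMap_eq fun x => rfl
  have hunit : ∀ s : T, s ∉ P → IsUnit (algebraMap T R s) := fun s hs =>
    IsLocalization.map_units R (⟨s, hs⟩ : P.primeCompl)
  have hinv : ∀ s : T, s ∉ P → (algebraMap T K s)⁻¹ ∈ V := by
    intro s hs
    obtain ⟨s', hs'⟩ := isUnit_iff_exists_inv.1 (hunit s hs)
    have h1 : algebraMap R K s' * algebraMap T K s = 1 := by
      rw [hTK, ← map_mul, mul_comm, hs', map_one]
    rw [← eq_inv_of_mul_eq_one_left h1]
    exact hV _
  have hfs : FaithfulSMul T K := (faithfulSMul_iff_algebraMap_injective T K).2 (e2.comp e1)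
  have hfrac : IsFractionRing T K := by
    refine IsFractionRing.of_field T K fun z => ?_
    obtain ⟨r, s, hs, rfl⟩ := IsFractionRing.div_surjective (A := R) z
    obtain ⟨⟨a, u⟩, ha⟩ := IsLocalization.surj P.primeCompl r
    obtain ⟨⟨b, v⟩, hb⟩ := IsLocalization.surj P.primeCompl s
    have ha' : r * algebraMap T R u = algebraMap T R a := ha
    have hb' : s * algebraMap T R v = algebraMap T R b := hb
    have hu0 : algebraMap T K u ≠ 0 := by
      intro h0
      have : (u : T) = 0 := (e2.comp e1) (h0.trans (map_zero (algebraMap T K)).symm)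
      exact u.2 (this ▸ P.zero_mem)
    have hv0 : algebraMap T K v ≠ 0 := by
      intro h0
      have : (v : T) = 0 := (e2.comp e1) (h0.trans (map_zero (algebraMap T K)).symm)
      exact v.2 (this ▸ P.zero_mem)
    have hs0 : algebraMap R K s ≠ 0 := IsFractionRing.to_map_ne_zero_of_mem_nonZeroDivisors hs
    have ha2 : algebraMap R K r * algebraMap T K u = algebraMap T K a := by
      have h1 := congrArg (algebraMap R K) ha'
      rw [map_mul] at h1
      exact h1
    have hb2 : algebraMap R K s * algebraMap T K v = algebraMap T K b := by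
      have h1 := congrArg (algebraMap R K) hb'
      rw [map_mul] at h1
      exact h1
    refine ⟨a * v, b * u, ?_⟩
    rw [map_mul, map_mul, ← ha2, ← hb2]
    field_simp
  let p := P.comap (algebraMap O T)
  have hOK : Function.Injective ((algebraMap T K).comp (algebraMap O T)) :=
    (e2.comp e1).comp hinj
  let E := FractionRing O
  let _ : Algebra E K := (IsFractionRing.lift hOK).toAlgebra
  have hE : ∀ b : O, algebraMap T K (algebraMap O T b) = algebraMap E K (algebraMap O E b) :=
    fun b => (IsFractionRing.lift_algebraMap hOK b).symm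
  obtain ⟨σ, _, α, hα1, hα2, hα3⟩ := h E K hE V fun f => hV _
  -- the local ring of the base
  have hpu : ∀ y : p.primeCompl, IsUnit (algebraMap O E y) := by
    intro y
    rw [isUnit_iff_ne_zero]
    intro h0
    have h1 : (y : O) = 0 := (IsFractionRing.injective O E) (h0.trans (map_zero _).symm)
    exact y.2 (h1 ▸ p.zero_mem)
  let Op := Localization.AtPrime p
  let _ : Algebra Op E := (IsLocalization.lift (M := p.primeCompl) hpu).toAlgebra
  have t2 : IsScalarTower O Op E := IsScalarTower.of_algebraMap_eq fun x =>
    (IsLocalization.lift_eq hpu x).symm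
  have hf2 : IsFractionRing Op E :=
    IsFractionRing.isFractionRing_of_isDomain_of_isLocalization p.primeCompl Op E
  have hpR : ∀ y : p.primeCompl, IsUnit (((algebraMap T R).comp (algebraMap O T)) y) := fun y =>
    hunit _ y.2
  let l : Op →+* R := IsLocalization.lift (M := p.primeCompl) hpR
  have hl : ∀ b : O, l (algebraMap O Op b) = algebraMap T R (algebraMap O T b) := fun b =>
    IsLocalization.lift_eq hpR b
  have hlK : ∀ r : Op, algebraMap R K (l r) = algebraMap E K (algebraMap Op E r) := by
    intro r
    have h1 : (algebraMap R K).comp l = (algebraMap E K).comp (algebraMap Op E) := by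
      apply IsLocalization.ringHom_ext p.primeCompl
      ext b
      change algebraMap R K (l (algebraMap O Op b)) = algebraMap E K (algebraMap Op E _)
      have h9 : algebraMap Op E (algebraMap O Op b) = algebraMap O E b :=
        IsLocalization.lift_eq hpu b
      rw [hl, h9, ← hE]
      rfl
    exact congrArg (fun g : Op →+* K => g r) h1
  have hlm : ∀ r : Op, r ∈ IsLocalRing.maximalIdeal Op ↔ l r ∈ IsLocalRing.maximalIdeal R := by
    intro r
    rw [IsLocalRing.mem_maximalIdeal, IsLocalRing.mem_maximalIdeal, mem_nonunits_iff,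
      mem_nonunits_iff, not_iff_not]
    constructor
    · exact fun hr => hr.map l
    · intro hr
      obtain ⟨⟨b, s⟩, hb⟩ := IsLocalization.surj p.primeCompl r
      have hb' : r * algebraMap O Op s = algebraMap O Op b := hb
      have h1 : IsUnit (l (algebraMap O Op b)) := by
        rw [← hb', map_mul]
        refine hr.mul ?_
        rw [hl]
        exact hunit _ s.2
      have h2 : b ∉ p := by
        intro hbp
        rw [hl] at h1
        have h3 : algebraMap T R (algebraMap O T b) ∈ IsLocalRing.maximalIdeal R := by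
          rw [← IsLocalization.AtPrime.map_eq_maximalIdeal P R]
          exact Ideal.mem_map_of_mem _ hbp
        exact (IsLocalRing.mem_maximalIdeal _).1 h3 h1
      have h3 : IsUnit (r * algebraMap O Op s) := by
        rw [hb']
        exact IsLocalization.map_units Op (⟨b, h2⟩ : p.primeCompl)
      exact isUnit_of_mul_isUnit_left h3
  have hOV : ∀ r : Op, algebraMap Op E r ∈ V.comap (algebraMap E K) := by
    intro r
    change algebraMap E K (algebraMap Op E r) ∈ V
    rw [← hlK]
    exact hV _
  have hu : Uni Op (V.comap (algebraMap E K)) := by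
    refine hO E _ hOV fun r => ?_
    rw [comap_lt (algebraMap E K) V _ (hOV r), ← hlK, ← hVm]
    exact hlm r
  refine uni_prod V (fun b => ⟨l b, hlK b⟩) hu α hα1 hα2 fun r => ?_
  obtain ⟨⟨a, s⟩, ha⟩ := IsLocalization.surj P.primeCompl r
  have ha' : r * algebraMap T R s = algebraMap T R a := ha
  have hle : Subring.closure (Set.range (fun b : O => algebraMap E K (algebraMap O E b)) ∪
      Set.range α) ≤ Subring.closure
      (Set.range (fun b : Op => algebraMap E K (algebraMap Op E b)) ∪ Set.range α) := by
    apply Subring.closure_mono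
    rintro y (⟨b, rfl⟩ | hy)
    · exact Or.inl ⟨algebraMap O Op b, by
        change _ = algebraMap E K (algebraMap O E b)
        rw [IsScalarTower.algebraMap_apply O Op E]⟩
    · exact Or.inr hy
  have hs0 : algebraMap T K s ≠ 0 := by
    intro h0
    have : (s : T) = 0 := (e2.comp e1) (h0.trans (map_zero (algebraMap T K)).symm)
    exact s.2 (this ▸ P.zero_mem)
  refine ⟨algebraMap T K a, hle (hα3 a), algebraMap T K s, hle (hα3 s), hs0, hinv _ s.2, ?_⟩
  have h1 := congrArg (algebraMap R K) ha'
  rw [map_mul] at h1
  have h2 : algebraMap R K r * algebraMap T K s = algebraMap T K a := h1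
  rw [← h2]
  field_simp

/-- A regular local ring is uniformized. -/
theorem adLU_of_regular (R : Type) [CommRing R] [IsRegularLocalRing R] : AdLU R := by
  intro K _ _ _ V hV hVm
  have hinj : Function.Injective (algebraMap R K) := IsFractionRing.injective R K
  have hAV : ∀ a : (⊥ : Subalgebra R K), (a : K) ∈ V := by
    rintro ⟨_, r, rfl⟩
    exact hV r
  let ι : (⊥ : Subalgebra R K) →+* V :=
    (⊥ : Subalgebra R K).val.toRingHom.codRestrict V.toSubring fun a => hAV a
  let P : Ideal (⊥ : Subalgebra R K) := (IsLocalRing.maximalIdeal V).comap ι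
  have hP : P.IsPrime := Ideal.IsPrime.comap ι
  have hPm : ∀ a : (⊥ : Subalgebra R K), a ∈ P ↔ V.valuation (a : K) < 1 := by
    intro a
    change ι a ∈ IsLocalRing.maximalIdeal V ↔ _
    exact V.valuation_lt_one_iff (ι a)
  refine ⟨⊥, Subalgebra.fg_bot, hAV, P, hP, hPm, ?_⟩
  let e : R ≃+* (⊥ : Subalgebra R K) :=
    RingEquiv.ofBijective (algebraMap R (⊥ : Subalgebra R K))
      ⟨fun x y h => hinj (congrArg Subtype.val h), by
        rintro ⟨_, r, rfl⟩
        exact ⟨r, rfl⟩⟩
  have h1 : IsRegularLocalRing (⊥ : Subalgebra R K) := IsRegularLocalRing.of_ringEquiv e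
  have h2 : ∀ x : P.primeCompl, IsUnit (x : (⊥ : Subalgebra R K)) := by
    rintro ⟨⟨_, r, rfl⟩, hr⟩
    have h3 : ¬ r ∈ IsLocalRing.maximalIdeal R := by
      rw [hVm]
      exact fun h4 => hr ((hPm _).2 h4)
    have h4 : IsUnit r := by
      rw [IsLocalRing.mem_maximalIdeal, mem_nonunits_iff, not_not] at h3
      exact h3
    exact h4.map (algebraMap R (⊥ : Subalgebra R K))
  exact IsRegularLocalRing.of_ringEquiv
    (IsLocalization.atUnits (⊥ : Subalgebra R K) P.primeCompl (S := Localization.AtPrime P)
      (fun x hx => h2 ⟨x, hx⟩)).toRingEquiv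

end Pool.Agent.Q2.LV
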