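import Pool.Agent.Q2.LV.Core

/-!
Local uniformization of vector invariants over a base: groups given by levels.
-/

set_option autoImplicit false
set_option linter.unusedSectionVars false

open Matrix MvPolynomial

namespace Pool.Agent.Q2.LV

open Pool.Agent.Q2.VI

section core

variable {F : Type} [Field F] [Fintype F] {m r : ℕ} (lv d : Fin r → ℕ)
  {O E K : Type} [CommRing O] [IsDomain O] [Algebra F O] [Field E] [Algebra O E]
  [IsFractionRing O E] [Field K] [Algebra E K]

/-- The charts at a valuation ring. -/
theorem core_lv [NeZero m]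
    [Algebra (inv O m (Lv (F := F) lv d)) K] [IsFractionRing (inv O m (Lv (F := F) lv d)) K]
    (hE : ∀ b : O, algebraMap (inv O m (Lv (F := F) lv d)) K (algebraMap O _ b) =
      algebraMap E K (algebraMap O E b))
    (V : ValuationSubring K)
    (hV : ∀ f : inv O m (Lv (F := F) lv d), algebraMap _ K f ∈ V) :
    ∃ (σ : Type) (_ : Finite σ) (α : σ → K), AlgebraicIndependent E α ∧ (∀ w, α w ∈ V) ∧
      ∀ f : inv O m (Lv (F := F) lv d), algebraMap _ K f ∈ Subring.closure
        (Set.range (fun b : O => algebraMap E K (algebraMap O E b)) ∪ Set.range α) := by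
  classical
  obtain ⟨t, e, he⟩ := exists_sort lv
  let q := Fintype.card F
  let T := inv O m (Gm (F := F) (sz lv t) (dd e q d))
  let T' := inv O m (Lv (F := F) lv d)
  let φ : MvPolynomial (Fin r × Fin m) O ≃ₐ[O] MvPolynomial (Rw (sz lv t) × Fin m) O :=
    renameEquiv O (Equiv.prodCongr e (Equiv.refl (Fin m)))
  have hφ : ∀ f, φ f = rename (fun w : Fin r × Fin m => (e w.1, w.2)) f := fun f => rfl
  have h3 : ∀ f, f ∈ T' ↔ φ f ∈ T := by
    intro f
    constructor
    · intro h g' hg'
      have h4 : (g'.submatrix e e).submatrix e.symm e.symm = g' := by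
        rw [submatrix_submatrix]
        have h5 : (e ∘ e.symm) = id := funext fun w => e.apply_symm_apply w
        rw [h5, submatrix_id_id]
      rw [← h4, hφ, so_rename, h]
      rw [lv_iff e he, h4]
      exact hg'
    · intro h g hg
      have h4 := h _ ((lv_iff e he g).1 hg)
      rw [hφ, so_rename] at h4
      exact φ.injective h4
  let ε : T' ≃+* T :=
    { toFun := fun f => ⟨φ f.1, (h3 _).1 f.2⟩
      invFun := fun f => ⟨φ.symm f.1, (h3 _).2 (by rw [AlgEquiv.apply_symm_apply]; exact f.2)⟩
      left_inv := fun f => Subtype.ext (φ.symm_apply_apply _)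
      right_inv := fun f => Subtype.ext (φ.apply_symm_apply _)
      map_mul' := fun f g => Subtype.ext (map_mul φ _ _)
      map_add' := fun f g => Subtype.ext (map_add φ _ _) }
  let _ : Algebra T K := ((algebraMap T' K).comp ε.symm.toRingHom).toAlgebra
  have hTK : ∀ f : T, algebraMap T K f = algebraMap T' K (ε.symm f) := fun f => rfl
  have hfr : IsFractionRing T K := by
    have : FaithfulSMul T K := (faithfulSMul_iff_algebraMap_injective T K).2
      ((IsFractionRing.injective T' K).comp ε.symm.injective)
    refine IsFractionRing.of_field T K fun z => ?_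
    obtain ⟨u, v, hv, rfl⟩ := IsFractionRing.div_surjective (A := T') z
    refine ⟨ε u, ε v, ?_⟩
    rw [hTK, hTK, RingEquiv.symm_apply_apply, RingEquiv.symm_apply_apply]
  have hT1 : ∀ b : O, algebraMap T K (algebraMap O T b) = algebraMap E K (algebraMap O E b) := by
    intro b
    rw [← hE, hTK]
    congr 1
    rw [RingEquiv.symm_apply_eq]
    apply Subtype.ext
    exact (φ.commutes b).symm
  obtain ⟨α, h4, h5, h6⟩ := core (F := F) (m := m) (a := sz lv t) (d := dd e q d)
    (fun i => dd_dvd e _ i) hT1 V fun f => hV _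
  refine ⟨_, inferInstance, α, h4, h5, fun f => ?_⟩
  have h7 := h6 (ε f)
  rw [hTK, RingEquiv.symm_apply_apply] at h7
  exact h7

end core

end Pool.Agent.Q2.LV
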